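import Pool.Agent.ZDV.OneD

set_option autoImplicit false
set_option linter.unusedSimpArgs false

/-!
Symmetry of second derivatives, and its consequence for a primitive of `dens`.
-/

namespace ZDV

open Finset Filter Topology MeasureTheory
open scoped ContDiff

theorem mvt2 {P A A' : ℝ → ℝ → ℝ} (hA : ∀ s t, HasDerivAt (fun s => P s t) (A s t) s)
    (hA' : ∀ s t, HasDerivAt (fun t => A s t) (A' s t) t) {h : ℝ} (hh : 0 < h) :
    ∃ ξ ζ : ℝ, (0 < ξ ∧ ξ < h) ∧ (0 < ζ ∧ ζ < h) ∧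
      A' ξ ζ = (P h h - P h 0 - P 0 h + P 0 0) / h / h := by
  have h1 : ∀ s, HasDerivAt (fun s => P s h - P s 0) (A s h - A s 0) s := fun s =>
    (hA s h).sub (hA s 0)
  obtain ⟨ξ, hξ, h2⟩ := exists_hasDerivAt_eq_slope (fun s => P s h - P s 0)
    (fun s => A s h - A s 0) hh (fun s _ => (h1 s).continuousAt.continuousWithinAt)
    (fun s _ => h1 s)
  obtain ⟨ζ, hζ, h3⟩ := exists_hasDerivAt_eq_slope (fun t => A ξ t)
    (fun t => A' ξ t) hh (fun t _ => (hA' ξ t).continuousAt.continuousWithinAt)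
    (fun t _ => hA' ξ t)
  refine ⟨ξ, ζ, ⟨hξ.1, hξ.2⟩, ⟨hζ.1, hζ.2⟩, ?_⟩
  rw [h3, h2]
  rw [sub_zero]
  congr 2
  ring

theorem clairaut {P A B A' B' : ℝ → ℝ → ℝ}
    (hA : ∀ s t, HasDerivAt (fun s => P s t) (A s t) s)
    (hB : ∀ s t, HasDerivAt (fun t => P s t) (B s t) t)
    (hA' : ∀ s t, HasDerivAt (fun t => A s t) (A' s t) t)
    (hB' : ∀ s t, HasDerivAt (fun s => B s t) (B' s t) s)
    (cA : Continuous (fun p : ℝ × ℝ => A' p.1 p.2))
    (cB : Continuous (fun p : ℝ × ℝ => B' p.1 p.2)) : A' 0 0 = B' 0 0 := by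
  have hpos : ∀ n : ℕ, (0 : ℝ) < 1 / (n + 1) := fun n => by positivity
  choose x1 y1 hx1 hy1 e1 using fun n : ℕ => mvt2 hA hA' (hpos n)
  choose y2 x2 hy2 hx2 e2 using fun n : ℕ =>
    mvt2 (P := fun t s => P s t) (A := fun t s => B s t) (A' := fun t s => B' s t)
      (fun t s => hB s t) (fun t s => hB' s t) (hpos n)
  have hlim := tendsto_one_div_add_atTop_nhds_zero_nat (𝕜 := ℝ)
  have sq : ∀ z : ℕ → ℝ, (∀ n, 0 < z n ∧ z n < 1 / ((n : ℝ) + 1)) →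
      Tendsto z atTop (𝓝 0) := fun z hz =>
    tendsto_of_tendsto_of_tendsto_of_le_of_le tendsto_const_nhds hlim
      (fun n => (hz n).1.le) (fun n => (hz n).2.le)
  have t1 : Tendsto (fun n => A' (x1 n) (y1 n)) atTop (𝓝 (A' 0 0)) := by
    have h := (cA.tendsto (0, 0)).comp ((sq x1 hx1).prodMk_nhds (sq y1 hy1))
    exact h
  have t2 : Tendsto (fun n => B' (x2 n) (y2 n)) atTop (𝓝 (B' 0 0)) := by
    have h := (cB.tendsto (0, 0)).comp ((sq x2 hx2).prodMk_nhds (sq y2 hy2))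
    exact h
  refine tendsto_nhds_unique t1 (t2.congr fun n => ?_)
  rw [e1 n, e2 n]
  congr 2
  ring

theorem param {F F' : ℝ → ℝ → ℝ} (hF : Continuous (fun p : ℝ × ℝ => F p.1 p.2))
    (hF' : Continuous (fun p : ℝ × ℝ => F' p.1 p.2))
    (hd : ∀ t x, HasDerivAt (fun t => F t x) (F' t x) t) (t0 : ℝ) :
    HasDerivAt (fun t => ∫ x in (0 : ℝ)..1, F t x) (∫ x in (0 : ℝ)..1, F' t0 x) t0 := by
  have hK : IsCompact (Set.Icc (t0 - 1) (t0 + 1) ×ˢ Set.Icc (0 : ℝ) 1) :=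
    isCompact_Icc.prod isCompact_Icc
  obtain ⟨C, hC⟩ := hK.exists_bound_of_continuousOn hF'.continuousOn
  have h1 : ∀ t, Continuous (F t) := fun t => hF.comp (continuous_const.prodMk continuous_id)
  have h2 : ∀ t, Continuous (F' t) := fun t => hF'.comp (continuous_const.prodMk continuous_id)
  refine (intervalIntegral.hasDerivAt_integral_of_dominated_loc_of_deriv_le (𝕜 := ℝ)
    (F := F) (F' := F') (s := Set.Icc (t0 - 1) (t0 + 1)) (bound := fun _ => C)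
    (Icc_mem_nhds (by linarith) (by linarith)) ?_ ?_ ?_ ?_ ?_ ?_).2
  · exact Eventually.of_forall fun t => (h1 t).aestronglyMeasurable
  · exact (h1 t0).intervalIntegrable _ _
  · exact (h2 t0).aestronglyMeasurable
  · refine Eventually.of_forall fun x hx t ht => ?_
    rw [Set.uIoc_of_le zero_le_one] at hx
    exact hC (t, x) ⟨ht, ⟨hx.1.le, hx.2⟩⟩
  · exact continuous_const.intervalIntegrable _ _
  · exact Eventually.of_forall fun x _ t _ => hd t x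

theorem cont_V {X : Type*} [TopologicalSpace X] (q : ℕ) (c : ℕ → ℝ) {r y : X → ℝ}
    (hr : Continuous r) (hy : Continuous y) : Continuous (fun x => V q c (r x) (y x)) := by
  unfold V
  fun_prop

theorem cont_Vr {X : Type*} [TopologicalSpace X] (q : ℕ) (c : ℕ → ℝ) {r y : X → ℝ}
    (hr : Continuous r) (hy : Continuous y) : Continuous (fun x => Vr q c (r x) (y x)) := by
  unfold Vr
  fun_prop

theorem cont_Vy {X : Type*} [TopologicalSpace X] (q : ℕ) (c : ℕ → ℝ) {r y : X → ℝ}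
    (hr : Continuous r) (hy : Continuous y) : Continuous (fun x => Vy q c (r x) (y x)) := by
  unfold Vy
  fun_prop

/-- The integrand of the first variation in the direction `g` at `f + s g + t h`, in terms of
the derivatives `f1, f2, g1, ...`. -/
noncomputable def FA (q : ℕ) (c : ℕ → ℝ) (f1 f2 g1 g2 h1 h2 : ℝ → ℝ) (s t x : ℝ) : ℝ :=
  (g2 x + 2 * q * (f1 x + s * g1 x + t * h1 x) * g1 x) *
    V q c (rr q (f1 x + s * g1 x + t * h1 x) (f2 x + s * g2 x + t * h2 x))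
      (yy (f1 x + s * g1 x + t * h1 x) (f2 x + s * g2 x + t * h2 x))

/-- The derivative of `FA` in `t`. -/
noncomputable def FA' (q : ℕ) (c : ℕ → ℝ) (f1 f2 g1 g2 h1 h2 : ℝ → ℝ) (s t x : ℝ) : ℝ :=
  2 * q * h1 x * g1 x *
    V q c (rr q (f1 x + s * g1 x + t * h1 x) (f2 x + s * g2 x + t * h2 x))
      (yy (f1 x + s * g1 x + t * h1 x) (f2 x + s * g2 x + t * h2 x)) +
  (g2 x + 2 * q * (f1 x + s * g1 x + t * h1 x) * g1 x) *
    (Vr q c (rr q (f1 x + s * g1 x + t * h1 x) (f2 x + s * g2 x + t * h2 x))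
      (yy (f1 x + s * g1 x + t * h1 x) (f2 x + s * g2 x + t * h2 x)) *
      (2 * h2 x + 4 * q * (f1 x + s * g1 x + t * h1 x) * h1 x) +
    Vy q c (rr q (f1 x + s * g1 x + t * h1 x) (f2 x + s * g2 x + t * h2 x))
      (yy (f1 x + s * g1 x + t * h1 x) (f2 x + s * g2 x + t * h2 x)) *
      (h2 x - 2 * (f1 x + s * g1 x + t * h1 x) * h1 x))

theorem FA_def (q : ℕ) (c : ℕ → ℝ) (f1 f2 g1 g2 h1 h2 : ℝ → ℝ) (s t x : ℝ) :
    FA q c f1 f2 g1 g2 h1 h2 s t x =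
      (g2 x + 2 * q * (f1 x + s * g1 x + t * h1 x) * g1 x) *
    V q c (rr q (f1 x + s * g1 x + t * h1 x) (f2 x + s * g2 x + t * h2 x))
      (yy (f1 x + s * g1 x + t * h1 x) (f2 x + s * g2 x + t * h2 x)) := rfl

theorem FA'_def (q : ℕ) (c : ℕ → ℝ) (f1 f2 g1 g2 h1 h2 : ℝ → ℝ) (s t x : ℝ) :
    FA' q c f1 f2 g1 g2 h1 h2 s t x = 2 * q * h1 x * g1 x *
    V q c (rr q (f1 x + s * g1 x + t * h1 x) (f2 x + s * g2 x + t * h2 x))
      (yy (f1 x + s * g1 x + t * h1 x) (f2 x + s * g2 x + t * h2 x)) +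
  (g2 x + 2 * q * (f1 x + s * g1 x + t * h1 x) * g1 x) *
    (Vr q c (rr q (f1 x + s * g1 x + t * h1 x) (f2 x + s * g2 x + t * h2 x))
      (yy (f1 x + s * g1 x + t * h1 x) (f2 x + s * g2 x + t * h2 x)) *
      (2 * h2 x + 4 * q * (f1 x + s * g1 x + t * h1 x) * h1 x) +
    Vy q c (rr q (f1 x + s * g1 x + t * h1 x) (f2 x + s * g2 x + t * h2 x))
      (yy (f1 x + s * g1 x + t * h1 x) (f2 x + s * g2 x + t * h2 x)) *
      (h2 x - 2 * (f1 x + s * g1 x + t * h1 x) * h1 x)) := rfl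

theorem hasDerivAt_FA (q : ℕ) (c : ℕ → ℝ) (f1 f2 g1 g2 h1 h2 : ℝ → ℝ) (s t x : ℝ) :
    HasDerivAt (fun t => FA q c f1 f2 g1 g2 h1 h2 s t x)
      (FA' q c f1 f2 g1 g2 h1 h2 s t x) t := by
  have d1 : HasDerivAt (fun t : ℝ => f1 x + s * g1 x + t * h1 x) (h1 x) t := by
    have := ((hasDerivAt_id t).mul_const (h1 x)).const_add (f1 x + s * g1 x)
    simpa using this
  have d2 : HasDerivAt (fun t : ℝ => f2 x + s * g2 x + t * h2 x) (h2 x) t := by
    have := ((hasDerivAt_id t).mul_const (h2 x)).const_add (f2 x + s * g2 x)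
    simpa using this
  have d3 : HasDerivAt (fun t : ℝ => rr q (f1 x + s * g1 x + t * h1 x)
      (f2 x + s * g2 x + t * h2 x))
      (2 * h2 x + 4 * q * (f1 x + s * g1 x + t * h1 x) * h1 x) t := by
    unfold rr
    refine ((d2.const_mul 2).add ((d1.pow 2).const_mul (2 * (q : ℝ)))).congr_deriv ?_
    push_cast
    ring
  have d4 : HasDerivAt (fun t : ℝ => yy (f1 x + s * g1 x + t * h1 x)
      (f2 x + s * g2 x + t * h2 x))
      (h2 x - 2 * (f1 x + s * g1 x + t * h1 x) * h1 x) t := by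
    unfold yy
    refine (d2.sub (d1.pow 2)).congr_deriv ?_
    push_cast
    ring
  have d5 := hasDerivAt_V q c d3 d4
  have d6 : HasDerivAt (fun t : ℝ => g2 x + 2 * q * (f1 x + s * g1 x + t * h1 x) * g1 x)
      (2 * q * h1 x * g1 x) t := ((d1.const_mul (2 * (q : ℝ))).mul_const (g1 x)).const_add (g2 x)
  unfold FA FA'
  exact d6.mul d5

section

variable {f1 f2 g1 g2 h1 h2 : ℝ → ℝ} (cf1 : Continuous f1) (cf2 : Continuous f2)
  (cg1 : Continuous g1) (cg2 : Continuous g2) (ch1 : Continuous h1) (ch2 : Continuous h2)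

include cf1 cf2 cg1 cg2 ch1 ch2

theorem cont_FA (q : ℕ) (c : ℕ → ℝ) :
    Continuous (fun p : (ℝ × ℝ) × ℝ => FA q c f1 f2 g1 g2 h1 h2 p.1.1 p.1.2 p.2) := by
  have e1 : Continuous (fun p : (ℝ × ℝ) × ℝ => rr q (f1 p.2 + p.1.1 * g1 p.2 + p.1.2 * h1 p.2)
      (f2 p.2 + p.1.1 * g2 p.2 + p.1.2 * h2 p.2)) := by
    unfold rr; fun_prop
  have e2 : Continuous (fun p : (ℝ × ℝ) × ℝ => yy (f1 p.2 + p.1.1 * g1 p.2 + p.1.2 * h1 p.2)
      (f2 p.2 + p.1.1 * g2 p.2 + p.1.2 * h2 p.2)) := by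
    unfold yy; fun_prop
  have e3 := cont_V q c e1 e2
  unfold FA
  fun_prop

theorem cont_FA' (q : ℕ) (c : ℕ → ℝ) :
    Continuous (fun p : (ℝ × ℝ) × ℝ => FA' q c f1 f2 g1 g2 h1 h2 p.1.1 p.1.2 p.2) := by
  have e1 : Continuous (fun p : (ℝ × ℝ) × ℝ => rr q (f1 p.2 + p.1.1 * g1 p.2 + p.1.2 * h1 p.2)
      (f2 p.2 + p.1.1 * g2 p.2 + p.1.2 * h2 p.2)) := by
    unfold rr; fun_prop
  have e2 : Continuous (fun p : (ℝ × ℝ) × ℝ => yy (f1 p.2 + p.1.1 * g1 p.2 + p.1.2 * h1 p.2)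
      (f2 p.2 + p.1.1 * g2 p.2 + p.1.2 * h2 p.2)) := by
    unfold yy; fun_prop
  have e3 := cont_V q c e1 e2
  have e4 := cont_Vr q c e1 e2
  have e5 := cont_Vy q c e1 e2
  unfold FA'
  fun_prop

theorem int_FA (q : ℕ) (c : ℕ → ℝ) (s t : ℝ) :
    HasDerivAt (fun t => ∫ x in (0 : ℝ)..1, FA q c f1 f2 g1 g2 h1 h2 s t x)
      (∫ x in (0 : ℝ)..1, FA' q c f1 f2 g1 g2 h1 h2 s t x) t := by
  refine param (F := fun t x => FA q c f1 f2 g1 g2 h1 h2 s t x)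
    (F' := fun t x => FA' q c f1 f2 g1 g2 h1 h2 s t x) ?_ ?_ ?_ t
  · exact (cont_FA cf1 cf2 cg1 cg2 ch1 ch2 q c).comp
      ((continuous_const.prodMk continuous_fst).prodMk continuous_snd)
  · exact (cont_FA' cf1 cf2 cg1 cg2 ch1 ch2 q c).comp
      ((continuous_const.prodMk continuous_fst).prodMk continuous_snd)
  · exact fun t x => hasDerivAt_FA q c f1 f2 g1 g2 h1 h2 s t x

theorem cont_int_FA' (q : ℕ) (c : ℕ → ℝ) :
    Continuous (fun p : ℝ × ℝ => ∫ x in (0 : ℝ)..1, FA' q c f1 f2 g1 g2 h1 h2 p.1 p.2 x) :=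
  intervalIntegral.continuous_parametric_intervalIntegral_of_continuous'
    (f := fun (p : ℝ × ℝ) x => FA' q c f1 f2 g1 g2 h1 h2 p.1 p.2 x)
    (cont_FA' cf1 cf2 cg1 cg2 ch1 ch2 q c) 0 1

attribute [irreducible] FA FA'

/-- The consequence of the existence of a primitive. -/
theorem no_prim {q : ℕ} {c : ℕ → ℝ} {P : ℝ → ℝ → ℝ}
    (hA : ∀ s t, HasDerivAt (fun s => P s t)
      (∫ x in (0 : ℝ)..1, FA q c f1 f2 g1 g2 h1 h2 s t x) s)
    (hB : ∀ s t, HasDerivAt (fun t => P s t)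
      (∫ x in (0 : ℝ)..1, FA q c f1 f2 h1 h2 g1 g2 t s x) t) :
    ∫ x in (0 : ℝ)..1, f1 x * Vy q c (rr q (f1 x) (f2 x)) (yy (f1 x) (f2 x)) *
      (g2 x * h1 x - g1 x * h2 x) = 0 := by
  have k1 := cont_int_FA' cf1 cf2 cg1 cg2 ch1 ch2 q c
  have k0 := cont_int_FA' cf1 cf2 ch1 ch2 cg1 cg2 q c
  have k2 : Continuous (fun p : ℝ × ℝ =>
      ∫ x in (0 : ℝ)..1, FA' q c f1 f2 h1 h2 g1 g2 p.2 p.1 x) := by
    have k3 : Continuous (fun p : ℝ × ℝ => (p.2, p.1)) :=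
      continuous_snd.prodMk continuous_fst
    have k4 := Continuous.comp k0 k3
    simpa only [Function.comp_def] using k4
  have key := clairaut (P := P)
    (A := fun s t => ∫ x in (0 : ℝ)..1, FA q c f1 f2 g1 g2 h1 h2 s t x)
    (B := fun s t => ∫ x in (0 : ℝ)..1, FA q c f1 f2 h1 h2 g1 g2 t s x)
    (A' := fun s t => ∫ x in (0 : ℝ)..1, FA' q c f1 f2 g1 g2 h1 h2 s t x)
    (B' := fun s t => ∫ x in (0 : ℝ)..1, FA' q c f1 f2 h1 h2 g1 g2 t s x)
    hA hB (fun s t => int_FA cf1 cf2 cg1 cg2 ch1 ch2 q c s t)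
    (fun s t => int_FA cf1 cf2 ch1 ch2 cg1 cg2 q c t s) k1 k2
  have k5 : Continuous (fun x : ℝ => (((0 : ℝ), (0 : ℝ)), x)) := by fun_prop
  have i1 : Continuous (fun x => FA' q c f1 f2 g1 g2 h1 h2 0 0 x) :=
    (cont_FA' cf1 cf2 cg1 cg2 ch1 ch2 q c).comp k5
  have i2 : Continuous (fun x => FA' q c f1 f2 h1 h2 g1 g2 0 0 x) :=
    (cont_FA' cf1 cf2 ch1 ch2 cg1 cg2 q c).comp k5
  have h3 : ∀ x, FA' q c f1 f2 g1 g2 h1 h2 0 0 x - FA' q c f1 f2 h1 h2 g1 g2 0 0 x =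
      -(2 * q + 2) * (f1 x * Vy q c (rr q (f1 x) (f2 x)) (yy (f1 x) (f2 x)) *
      (g2 x * h1 x - g1 x * h2 x)) := by
    intro x
    rw [FA'_def, FA'_def]
    simp only [zero_mul, add_zero]
    ring
  have h4 := sub_eq_zero.2 key
  rw [← intervalIntegral.integral_sub (i1.intervalIntegrable _ _)
    (i2.intervalIntegrable _ _)] at h4
  simp only [h3] at h4
  rw [intervalIntegral.integral_const_mul] at h4
  have h5 : (-(2 * (q : ℝ) + 2)) ≠ 0 := by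
    have : (0 : ℝ) ≤ q := Nat.cast_nonneg q
    intro h
    linarith
  exact (mul_eq_zero.1 h4).resolve_left h5

end

end ZDV
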