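import Pool.Agent.ZDV.Div

set_option autoImplicit false
set_option linter.unusedSimpArgs false

/-!
Curvature of the metric `exp (2 f (x 0))` times the flat metric.
-/

namespace ZDV

open Finset Filter Topology MeasureTheory
open scoped ContDiff

variable {m : ℕ}

/-- Kronecker delta. -/
def dl (i j : Fin (m + 1)) : ℝ := if i = j then 1 else 0

theorem pd_comp0 {h : ℝ → ℝ} {h' : ℝ} {x : E m} (hh : HasDerivAt h h' (x 0))
    (i : Fin (m + 1)) : pd i (fun y : E m => h (y 0)) x = dl i 0 * h' := by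
  have h1 : HasFDerivAt (fun y : E m => y 0)
      (ContinuousLinearMap.proj (R := ℝ) (φ := fun _ : Fin (m + 1) => ℝ) 0) x :=
    (ContinuousLinearMap.proj (R := ℝ) (φ := fun _ : Fin (m + 1) => ℝ) 0).hasFDerivAt
  have h2 := hh.comp_hasFDerivAt x h1
  have h3 : fderiv ℝ (fun y : E m => h (y 0)) x = h' •
      (ContinuousLinearMap.proj (R := ℝ) (φ := fun _ : Fin (m + 1) => ℝ) 0) := h2.fderiv
  unfold pd dl
  rw [h3]
  by_cases hi : i = 0
  · subst hi; simp
  · simp [hi, Ne.symm hi]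

/-- The metric `exp (2 f (x 0))` times the flat metric. -/
noncomputable def mf (f : ℝ → ℝ) : Met m := cnf (fun x => f (x 0)) flat

theorem mf_apply (f : ℝ → ℝ) (x : E m) (a b : Fin (m + 1)) :
    mf f x a b = Real.exp (2 * f (x 0)) * dl a b := by
  simp [mf, cnf, flat, dl, Matrix.one_apply]

theorem mf_inv (f : ℝ → ℝ) (x : E m) (a b : Fin (m + 1)) :
    (mf f x)⁻¹ a b = Real.exp (-(2 * f (x 0))) * dl a b := by
  have h1 : (mf f x)⁻¹ =
      Real.exp (-(2 * f (x 0))) • (1 : Matrix (Fin (m + 1)) (Fin (m + 1)) ℝ) := by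
    apply Matrix.inv_eq_right_inv
    unfold mf cnf flat
    rw [Matrix.smul_mul, Matrix.mul_smul, smul_smul, ← Real.exp_add]
    simp
  rw [h1]
  simp [dl, Matrix.one_apply]

theorem mf_det (f : ℝ → ℝ) (x : E m) :
    √(mf f x).det = Real.exp ((m + 1) * f (x 0)) := by
  unfold mf cnf flat
  rw [Matrix.det_smul, Matrix.det_one, mul_one, Fintype.card_fin, ← Real.exp_nat_mul,
    Real.sqrt_eq_iff_mul_self_eq (Real.exp_pos _).le (Real.exp_pos _).le, ← Real.exp_add]
  congr 1
  push_cast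
  ring

theorem mf_pd {f : ℝ → ℝ} (hf : ContDiff ℝ ∞ f) (x : E m) (i a b : Fin (m + 1)) :
    pd i (fun y => mf f y a b) x =
      dl i 0 * (2 * deriv f (x 0) * Real.exp (2 * f (x 0)) * dl a b) := by
  have h0 : HasDerivAt f (deriv f (x 0)) (x 0) := (hf.differentiable (by simp) _).hasDerivAt
  have h1 : (fun y : E m => mf f y a b) =
      fun y => (fun t => Real.exp (2 * f t) * dl a b) (y 0) := by
    funext y
    exact mf_apply f y a b
  rw [h1]
  refine (pd_comp0 (h := fun t => Real.exp (2 * f t) * dl a b) ?_ i).trans rfl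
  have h2 := ((h0.const_mul 2).exp).mul_const (dl a b)
  refine h2.congr_deriv ?_
  ring

/-- The constants in the Christoffel symbols. -/
def kc (c a b : Fin (m + 1)) : ℝ := dl a 0 * dl c b + dl b 0 * dl c a - dl c 0 * dl a b

theorem sum_dl (c : Fin (m + 1)) (F : Fin (m + 1) → ℝ) : ∑ d, dl c d * F d = F c := by
  simp [dl]

theorem sum_dl' (c : Fin (m + 1)) (F : Fin (m + 1) → ℝ) : ∑ d, dl d c * F d = F c := by
  simp [dl]

theorem mf_chr {f : ℝ → ℝ} (hf : ContDiff ℝ ∞ f) (x : E m) (c a b : Fin (m + 1)) :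
    chr (mf f) c a b x = deriv f (x 0) * kc c a b := by
  unfold chr
  simp only [mf_inv, mf_pd hf]
  have h1 : ∀ d, Real.exp (-(2 * f (x 0))) * dl c d *
      (dl a 0 * (2 * deriv f (x 0) * Real.exp (2 * f (x 0)) * dl b d) +
      dl b 0 * (2 * deriv f (x 0) * Real.exp (2 * f (x 0)) * dl a d) -
      dl d 0 * (2 * deriv f (x 0) * Real.exp (2 * f (x 0)) * dl a b)) =
      dl c d * (2 * deriv f (x 0) * (dl a 0 * dl b d + dl b 0 * dl a d - dl d 0 * dl a b)) := by
    intro d
    have h2 : Real.exp (-(2 * f (x 0))) * Real.exp (2 * f (x 0)) = 1 := by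
      rw [← Real.exp_add]; simp
    linear_combination (dl c d * (2 * deriv f (x 0) *
      (dl a 0 * dl b d + dl b 0 * dl a d - dl d 0 * dl a b))) * h2
  simp only [h1]
  rw [sum_dl]
  unfold kc
  have h2 : dl b c = dl c b := by unfold dl; simp only [eq_comm]
  have h3 : dl a c = dl c a := by unfold dl; simp only [eq_comm]
  rw [h2, h3]
  ring

theorem deriv_sm {f : ℝ → ℝ} (hf : ContDiff ℝ ∞ f) : ContDiff ℝ ∞ (deriv f) := by
  have h := hf.iterate_deriv 1
  exact h

theorem mf_pd_chr {f : ℝ → ℝ} (hf : ContDiff ℝ ∞ f) (x : E m) (i c a b : Fin (m + 1)) :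
    pd i (chr (mf f) c a b) x = dl i 0 * (deriv (deriv f) (x 0) * kc c a b) := by
  have h1 : chr (mf f) c a b = fun y : E m => (fun t => deriv f t * kc c a b) (y 0) := by
    funext y
    exact mf_chr hf y c a b
  rw [h1]
  refine (pd_comp0 (h := fun t => deriv f t * kc c a b) ?_ i).trans rfl
  exact (((deriv_sm hf).differentiable (by simp) _).hasDerivAt).mul_const _

theorem kc_sum1 (d : Fin (m + 1)) : ∑ c, kc c c d = (m + 1) * dl d 0 := by
  unfold kc dl
  simp [Finset.sum_add_distrib, Finset.sum_sub_distrib]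
  try ring

theorem kc_sum1' (a : Fin (m + 1)) : ∑ c, kc c a c = (m + 1) * dl a 0 := by
  unfold kc dl
  simp [Finset.sum_add_distrib, Finset.sum_sub_distrib]
  try ring

theorem kc_sum2 (a b : Fin (m + 1)) :
    ∑ c, ∑ d, kc c b d * kc d a c = (m + 3) * (dl a 0 * dl b 0) - 2 * dl a b := by
  unfold kc dl
  simp [Finset.sum_add_distrib, Finset.sum_sub_distrib, mul_add, add_mul, mul_sub, sub_mul]
  rcases eq_or_ne a 0 with rfl | ha
  · rcases eq_or_ne b 0 with rfl | hb
    · simp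
      ring
    · simp [hb, Ne.symm hb]
  · rcases eq_or_ne b 0 with rfl | hb
    · simp [ha, Ne.symm ha]
    · rcases eq_or_ne a b with rfl | hab
      · simp [ha, Ne.symm ha]
        ring
      · simp [ha, Ne.symm ha, hb, Ne.symm hb, hab, Ne.symm hab]

/-- The Ricci tensor. -/
theorem mf_ric {f : ℝ → ℝ} (hf : ContDiff ℝ ∞ f) (x : E m) (a b : Fin (m + 1)) :
    ric (mf f) a b x = -(m - 1) * (deriv (deriv f) (x 0) - deriv f (x 0) ^ 2) *
      (dl a 0 * dl b 0) - (deriv (deriv f) (x 0) + (m - 1) * deriv f (x 0) ^ 2) * dl a b := by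
  unfold ric
  simp only [mf_pd_chr hf, mf_chr hf]
  have h1 : ∑ c, dl c 0 * (deriv (deriv f) (x 0) * kc c a b) =
      deriv (deriv f) (x 0) * kc 0 a b := sum_dl' 0 _
  have h2 : ∑ c, dl b 0 * (deriv (deriv f) (x 0) * kc c a c) =
      dl b 0 * deriv (deriv f) (x 0) * ((m + 1) * dl a 0) := by
    rw [← kc_sum1' a, Finset.mul_sum]
    refine Finset.sum_congr rfl fun c _ => ?_
    ring
  have h3 : ∑ c, ∑ d, (deriv f (x 0) * kc c c d * (deriv f (x 0) * kc d a b) -
      deriv f (x 0) * kc c b d * (deriv f (x 0) * kc d a c)) =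
      deriv f (x 0) ^ 2 * ((m + 1) * kc 0 a b) -
      deriv f (x 0) ^ 2 * ((m + 3) * (dl a 0 * dl b 0) - 2 * dl a b) := by
    rw [← kc_sum2 a b]
    simp only [Finset.sum_sub_distrib]
    congr 1
    · rw [Finset.sum_comm]
      have h4 : ∀ d, ∑ c, deriv f (x 0) * kc c c d * (deriv f (x 0) * kc d a b) =
          dl d 0 * (deriv f (x 0) ^ 2 * ((m + 1) * kc d a b)) := by
        intro d
        have h5 : ∀ c, deriv f (x 0) * kc c c d * (deriv f (x 0) * kc d a b) =
          (deriv f (x 0) ^ 2 * kc d a b) * kc c c d := fun c => by ring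
        simp only [h5]
        rw [← Finset.mul_sum, kc_sum1]
        ring
      simp only [h4]
      exact sum_dl' 0 _
    · rw [Finset.mul_sum]
      refine Finset.sum_congr rfl fun c _ => ?_
      rw [Finset.mul_sum]
      refine Finset.sum_congr rfl fun d _ => ?_
      ring
  rw [h1, h2, h3]
  have h4 : kc 0 a b = 2 * (dl a 0 * dl b 0) - dl a b := by
    unfold kc
    have h5 : dl 0 b = dl b 0 := by unfold dl; simp only [eq_comm]
    have h6 : dl 0 a = dl a 0 := by unfold dl; simp only [eq_comm]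
    have h7 : dl (0 : Fin (m + 1)) 0 = 1 := by simp [dl]
    rw [h5, h6, h7]
    ring
  rw [h4]
  ring

theorem dl_sq (a b : Fin (m + 1)) : dl a b * dl a b = dl a b := by
  unfold dl; split_ifs <;> simp

theorem mf_scal {f : ℝ → ℝ} (hf : ContDiff ℝ ∞ f) (x : E m) :
    scal (mf f) x = -(m * Real.exp (-(2 * f (x 0))) *
      (2 * deriv (deriv f) (x 0) + (m - 1) * deriv f (x 0) ^ 2)) := by
  unfold scal
  simp only [mf_inv, mf_ric hf]
  have h1 : ∀ a : Fin (m + 1), ∑ b, Real.exp (-(2 * f (x 0))) * dl a b *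
      (-(m - 1) * (deriv (deriv f) (x 0) - deriv f (x 0) ^ 2) *
      (dl a 0 * dl b 0) - (deriv (deriv f) (x 0) + (m - 1) * deriv f (x 0) ^ 2) * dl a b) =
      Real.exp (-(2 * f (x 0))) * (-(m - 1) * (deriv (deriv f) (x 0) - deriv f (x 0) ^ 2) *
      dl a 0 - (deriv (deriv f) (x 0) + (m - 1) * deriv f (x 0) ^ 2)) := by
    intro a
    have h2 : ∀ b, Real.exp (-(2 * f (x 0))) * dl a b *
      (-(m - 1) * (deriv (deriv f) (x 0) - deriv f (x 0) ^ 2) *
      (dl a 0 * dl b 0) - (deriv (deriv f) (x 0) + (m - 1) * deriv f (x 0) ^ 2) * dl a b) =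
      dl a b * (Real.exp (-(2 * f (x 0))) *
      (-(m - 1) * (deriv (deriv f) (x 0) - deriv f (x 0) ^ 2) *
      (dl a 0 * dl b 0) - (deriv (deriv f) (x 0) + (m - 1) * deriv f (x 0) ^ 2) * dl a b)) :=
      fun b => by ring
    simp only [h2]
    rw [sum_dl, dl_sq]
    have h3 : dl a a = 1 := by simp [dl]
    rw [h3]
    ring
  simp only [h1]
  have h4 : ∑ a : Fin (m + 1), dl a 0 = 1 := by simp [dl]
  rw [← Finset.mul_sum, Finset.sum_sub_distrib, ← Finset.mul_sum, h4]
  simp only [Finset.sum_const, Finset.card_univ, Fintype.card_fin, nsmul_eq_mul]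
  push_cast
  ring

theorem mf_ric0Sq {f : ℝ → ℝ} (hf : ContDiff ℝ ∞ f) (x : E m) :
    ric0Sq (mf f) x = m * (m - 1) ^ 2 / (m + 1) * Real.exp (-(4 * f (x 0))) *
      (deriv (deriv f) (x 0) - deriv f (x 0) ^ 2) ^ 2 := by
  unfold ric0Sq
  rw [mf_scal hf]
  simp only [mf_inv, mf_ric hf]
  set y : ℝ := -(m - 1) * (deriv (deriv f) (x 0) - deriv f (x 0) ^ 2) with hy
  set z : ℝ := deriv (deriv f) (x 0) + (m - 1) * deriv f (x 0) ^ 2 with hz
  set e : ℝ := Real.exp (-(2 * f (x 0))) with he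
  have he2 : Real.exp (-(4 * f (x 0))) = e * e := by
    rw [he, ← Real.exp_add]; congr 1; ring
  have h1 : ∀ a b : Fin (m + 1), ∑ c, ∑ d, e * dl a c * (e * dl b d) *
      (y * (dl a 0 * dl b 0) - z * dl a b) * (y * (dl c 0 * dl d 0) - z * dl c d) =
      e * e * (y * (dl a 0 * dl b 0) - z * dl a b) ^ 2 := by
    intro a b
    have h2 : ∀ c, ∑ d, e * dl a c * (e * dl b d) *
      (y * (dl a 0 * dl b 0) - z * dl a b) * (y * (dl c 0 * dl d 0) - z * dl c d) =
      dl a c * (e * e * (y * (dl a 0 * dl b 0) - z * dl a b) *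
        (y * (dl c 0 * dl b 0) - z * dl c b)) := by
      intro c
      have h3 : ∀ d, e * dl a c * (e * dl b d) *
        (y * (dl a 0 * dl b 0) - z * dl a b) * (y * (dl c 0 * dl d 0) - z * dl c d) =
        dl b d * (dl a c * (e * e * (y * (dl a 0 * dl b 0) - z * dl a b) *
        (y * (dl c 0 * dl d 0) - z * dl c d))) := fun d => by ring
      simp only [h3]
      exact sum_dl b _
    simp only [h2]
    rw [sum_dl]
    ring
  simp only [h1]
  have h5 : ∀ a b : Fin (m + 1), e * e * (y * (dl a 0 * dl b 0) - z * dl a b) ^ 2 =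
      e * e * (y ^ 2 * (dl a 0 * dl b 0) - 2 * y * z * (dl a b * (dl a 0 * dl b 0)) +
        z ^ 2 * dl a b) := by
    intro a b
    have h6 := dl_sq a b
    have h7 := dl_sq a 0
    have h8 := dl_sq b 0
    linear_combination (e * e * z ^ 2) * h6 + (e * e * y ^ 2 * (dl b 0 * dl b 0)) * h7 +
      (e * e * y ^ 2 * dl a 0) * h8
  simp only [h5]
  have h9 : ∀ a : Fin (m + 1), ∑ b, e * e * (y ^ 2 * (dl a 0 * dl b 0) -
      2 * y * z * (dl a b * (dl a 0 * dl b 0)) + z ^ 2 * dl a b) =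
      e * e * (y ^ 2 * dl a 0 - 2 * y * z * dl a 0 + z ^ 2) := by
    intro a
    have h10 : ∑ b : Fin (m + 1), dl b 0 = 1 := by simp [dl]
    have h11 : ∑ b : Fin (m + 1), dl a b * (dl a 0 * dl b 0) = dl a 0 * dl a 0 := sum_dl a _
    have h12 : ∑ b : Fin (m + 1), dl a b = 1 := by simp [dl]
    rw [← Finset.mul_sum, Finset.sum_add_distrib, Finset.sum_sub_distrib, ← Finset.mul_sum,
      ← Finset.mul_sum, ← Finset.mul_sum, ← Finset.mul_sum, h10, h11, h12, dl_sq]
    ring
  simp only [h9]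
  have h4 : ∑ a : Fin (m + 1), dl a 0 = 1 := by simp [dl]
  rw [← Finset.mul_sum, Finset.sum_add_distrib, Finset.sum_sub_distrib, ← Finset.mul_sum,
    ← Finset.mul_sum, h4]
  simp only [Finset.sum_const, Finset.card_univ, Fintype.card_fin, nsmul_eq_mul]
  rw [he2]
  push_cast
  have h13 : (m : ℝ) + 1 ≠ 0 := by positivity
  rw [hy, hz]
  field_simp
  ring

end ZDV
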