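import Mathlib

set_option autoImplicit false

namespace ZDV

open Finset

/-- The coordinate space of dimension `m + 1`. -/
abbrev E (m : ℕ) : Type := Fin (m + 1) → ℝ

/-- The derivative in the coordinate `i`. -/
noncomputable def pd {m : ℕ} (i : Fin (m + 1)) (F : E m → ℝ) (x : E m) : ℝ :=
  fderiv ℝ F x (Pi.single i 1)

/-- A metric in coordinates. -/
abbrev Met (m : ℕ) : Type := E m → Matrix (Fin (m + 1)) (Fin (m + 1)) ℝ

/-- The Christoffel symbol with upper index `c` and lower indices `a`, `b`. -/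
noncomputable def chr {m : ℕ} (g : Met m) (c a b : Fin (m + 1)) (x : E m) : ℝ :=
  1 / 2 * ∑ d, (g x)⁻¹ c d *
    (pd a (fun y => g y b d) x + pd b (fun y => g y a d) x - pd d (fun y => g y a b) x)

/-- The Ricci tensor. -/
noncomputable def ric {m : ℕ} (g : Met m) (a b : Fin (m + 1)) (x : E m) : ℝ :=
  ∑ c, pd c (chr g c a b) x - ∑ c, pd b (chr g c a c) x +
    ∑ c, ∑ d, (chr g c c d x * chr g d a b x - chr g c b d x * chr g d a c x)

/-- The scalar curvature. -/
noncomputable def scal {m : ℕ} (g : Met m) (x : E m) : ℝ :=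
  ∑ a, ∑ b, (g x)⁻¹ a b * ric g a b x

/-- The squared norm of the trace free part of the Ricci tensor. -/
noncomputable def ric0Sq {m : ℕ} (g : Met m) (x : E m) : ℝ :=
  ∑ a, ∑ b, ∑ c, ∑ d, (g x)⁻¹ a c * (g x)⁻¹ b d * ric g a b x * ric g c d x -
    scal g x ^ 2 / (m + 1)

/-- The components of the gradient of `F`, times the volume density. -/
noncomputable def grd {m : ℕ} (g : Met m) (F : E m → ℝ) (a : Fin (m + 1)) (x : E m) : ℝ :=
  √(g x).det * ∑ b, (g x)⁻¹ a b * pd b F x

/-- The Laplace-Beltrami operator. -/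
noncomputable def lap {m : ℕ} (g : Met m) (F : E m → ℝ) (x : E m) : ℝ :=
  1 / √(g x).det * ∑ a, pd a (grd g F a) x

/-- The natural scalar `∑ c_i R^(q-2i) |Ric_0|^(2i)`, where `0 ≤ 2i ≤ q`. -/
noncomputable def scT {m : ℕ} (q : ℕ) (c : ℕ → ℝ) (g : Met m) (x : E m) : ℝ :=
  ∑ i ∈ range (q / 2 + 1), c i * scal g x ^ (q - 2 * i) * ric0Sq g x ^ i

/-- The density of the natural form `lap (∑ c_i R^(q-2i) |Ric_0|^(2i)) dv`. -/
noncomputable def dens {m : ℕ} (q : ℕ) (c : ℕ → ℝ) (g : Met m) (x : E m) : ℝ :=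
  √(g x).det * lap g (scT q c g) x

/-- The metric conformal to `g` with factor `exp (2 w)`. -/
noncomputable def cnf {m : ℕ} (w : E m → ℝ) (g : Met m) : Met m :=
  fun x => Real.exp (2 * w x) • g x

/-- The flat metric. -/
noncomputable def flat {m : ℕ} : Met m := fun _ => 1

end ZDV
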