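import Pool.Agent.ZDV.Smooth

set_option autoImplicit false

/-!
The integral of `dens` over the torus vanishes, and it is conformally invariant locally.
-/

namespace ZDV

open Finset Filter Topology MeasureTheory
open scoped ContDiff

variable {m : ℕ}

theorem int_torus {g : Met m} (hg : IsMet g) (hper : ∀ i x, g (x + Pi.single i 1) = g x)
    (q : ℕ) (c : ℕ → ℝ) : ∫ x in Set.Icc (0 : E m) 1, dens q c g x = 0 := by
  set V : Fin (m + 1) → E m → ℝ := fun a => grd g (scT q c g) a with hV
  have hsm : ∀ a, ContDiff ℝ ∞ (V a) := fun a => sm_grd hg (sm_scT hg q c) a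
  have h1 : ∀ x, dens q c g x = ∑ a, fderiv ℝ (V a) x (Pi.single a 1) := fun x => by
    rw [dens_eq hg]; rfl
  have h2 : Continuous (fun x => ∑ a, fderiv ℝ (V a) x (Pi.single a 1)) := by
    have := (sm_dens hg q c).continuous
    rwa [show dens q c g = fun x => ∑ a, fderiv ℝ (V a) x (Pi.single a 1) from funext h1] at this
  have h3 := integral_divergence_of_hasFDerivAt_off_countable' (0 : E m) 1
    (fun i => by simp) V (fun i x => fderiv ℝ (V i) x) ∅ Set.countable_empty
    (fun i => (hsm i).continuous.continuousOn)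
    (fun x _ i => ((hsm i).differentiable (by simp) x).hasFDerivAt)
    (h2.continuousOn.integrableOn_compact isCompact_Icc)
  rw [setIntegral_congr_fun measurableSet_Icc (fun x _ => h1 x), h3]
  refine Finset.sum_eq_zero fun i _ => ?_
  have h4 : ∀ y : Fin m → ℝ, V i (i.insertNth ((1 : E m) i) y) =
      V i (i.insertNth ((0 : E m) i) y) := by
    intro y
    have h5 : (i.insertNth ((1 : E m) i) y : E m) =
        i.insertNth ((0 : E m) i) y + Pi.single i 1 := by
      funext j
      refine Fin.succAboveCases i ?_ (fun k => ?_) j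
      · simp
      · simp
    rw [h5]
    exact per_grd (hper i) q c i _
  simp only [h4]
  exact sub_self _

theorem isMet_cnf {g : Met m} (hg : IsMet g) {w : E m → ℝ} (hw : ContDiff ℝ ∞ w) :
    IsMet (cnf w g) := by
  refine ⟨fun a b => ?_, fun x => ?_⟩
  · have h1 : (fun x => cnf w g x a b) = fun x => Real.exp (2 * w x) * g x a b := by
      funext x
      simp [cnf]
    rw [h1]
    exact (Real.contDiff_exp.comp (contDiff_const.mul hw)).mul (hg.smooth a b)
  · exact (hg.pos x).smul (Real.exp_pos _)

theorem isMet_flat : IsMet (flat : Met m) :=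
  ⟨fun a b => by unfold flat; exact contDiff_const, fun x => Matrix.PosDef.one⟩

theorem int_pd {D : E m → ℝ} (hD : ContDiff ℝ ∞ D) (hs : HasCompactSupport D)
    (i : Fin (m + 1)) : Integrable (pd i D) ∧ ∫ x, pd i D x = 0 := by
  have hc : HasCompactSupport (pd i D) := by
    have h := hs.fderiv_apply (𝕜 := ℝ) (Pi.single i 1)
    exact h
  have h1 : Integrable (pd i D) := (sm_pd hD i).continuous.integrable_of_hasCompactSupport hc
  have h2 : Integrable D := hD.continuous.integrable_of_hasCompactSupport hs
  refine ⟨h1, ?_⟩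
  have h3 := integral_smul_fderiv_eq_neg_fderiv_smul_of_integrable (𝕜 := ℝ) (μ := volume)
    (f := fun _ : E m => (1 : ℝ)) (g := D) (v := Pi.single i 1) (by simp)
    (by simp only [one_smul]; exact h1) (by simpa using h2)
    (fun x _ => differentiableAt_const _) (fun x _ => hD.differentiable (by simp) x)
  simpa [pd] using h3

theorem int_local {g : Met m} (hg : IsMet g) {w : E m → ℝ} (hw : ContDiff ℝ ∞ w)
    (hs : HasCompactSupport w) (q : ℕ) (c : ℕ → ℝ) :
    Integrable (fun x => dens q c (cnf w g) x - dens q c g x) ∧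
      ∫ x, (dens q c (cnf w g) x - dens q c g x) = 0 := by
  have hg' := isMet_cnf hg hw
  set D : Fin (m + 1) → E m → ℝ := fun a x =>
    grd (cnf w g) (scT q c (cnf w g)) a x - grd g (scT q c g) a x with hD
  have h1 : ∀ a, ContDiff ℝ ∞ (D a) := fun a =>
    (sm_grd hg' (sm_scT hg' q c) a).sub (sm_grd hg (sm_scT hg q c) a)
  have h2 : ∀ a, HasCompactSupport (D a) := by
    intro a
    refine HasCompactSupport.intro (K := tsupport w) hs ?_
    intro x hx
    have h3 : cnf w g =ᶠ[𝓝 x] g := by
      have h4 : ∀ᶠ y in 𝓝 x, y ∉ tsupport w := (isClosed_tsupport w).isOpen_compl.mem_nhds hx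
      filter_upwards [h4] with y hy
      have h5 := image_eq_zero_of_notMem_tsupport hy
      simp [cnf, h5]
    have h6 := (loc_grd h3 q c a).eq_of_nhds
    simp only [hD, h6, sub_self]
  have h3 : (fun x => dens q c (cnf w g) x - dens q c g x) = fun x => ∑ a, pd a (D a) x := by
    funext x
    rw [dens_eq hg', dens_eq hg, ← Finset.sum_sub_distrib]
    refine Finset.sum_congr rfl fun a _ => ?_
    unfold pd
    have h4 := fderiv_fun_sub (𝕜 := ℝ)
      ((sm_grd hg' (sm_scT hg' q c) a).differentiable (by simp) x)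
      ((sm_grd hg (sm_scT hg q c) a).differentiable (by simp) x)
    simp only [hD]
    rw [h4]
    rfl
  rw [h3]
  refine ⟨integrable_finsetSum _ fun a _ => (int_pd (h1 a) (h2 a) a).1, ?_⟩
  rw [integral_finsetSum _ fun a _ => (int_pd (h1 a) (h2 a) a).1]
  exact Finset.sum_eq_zero fun a _ => (int_pd (h1 a) (h2 a) a).2

end ZDV
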