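import Pool.Agent.ZDV.Clair

set_option autoImplicit false
set_option linter.unusedSimpArgs false

/-!
A functional whose derivative is `eta ↦ ∫ eta dens` on the conformal class of the flat metric
exists only if `c i = 0` for all `i ≥ 1`.
-/

namespace ZDV

open Finset Filter Topology MeasureTheory
open scoped ContDiff

/-- The smooth functions on the torus. -/
def SP (m : ℕ) : Submodule ℝ (E m → ℝ) where
  carrier := {w | ContDiff ℝ ∞ w ∧ ∀ i x, w (x + Pi.single i 1) = w x}
  add_mem' := by
    rintro a b ⟨ha, ha'⟩ ⟨hb, hb'⟩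
    exact ⟨ha.add hb, fun i x => by simp only [Pi.add_apply, ha', hb']⟩
  zero_mem' := ⟨contDiff_const, fun i x => rfl⟩
  smul_mem' := by
    rintro r a ⟨ha, ha'⟩
    exact ⟨contDiff_const.smul ha, fun i x => by simp only [Pi.smul_apply, ha']⟩

/-- The function of the first coordinate given by a smooth periodic function. -/
def lft {m : ℕ} (f : ℝ → ℝ) (hf : ContDiff ℝ ∞ f) (hp : ∀ t, f (t + 1) = f t) : SP m :=
  ⟨fun x => f (x 0), hf.comp (contDiff_apply ℝ ℝ (0 : Fin (m + 1))), fun i x => by
    by_cases hi : i = 0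
    · subst hi
      simp [hp]
    · simp [Ne.symm hi]⟩

theorem vy_zero {q : ℕ} {c : ℕ → ℝ} (hV : ∀ u p : ℝ, u * Vy q c (rr q u p) (yy u p) = 0)
    {i : ℕ} (hi : 1 ≤ i) (hiq : 2 * i ≤ q) : c i = 0 := by
  have hq : (0 : ℝ) < q := by
    have : 0 < q := by omega
    exact_mod_cast this
  have hK : 0 < Kq q := by unfold Kq; positivity
  set P : Polynomial ℝ := ∑ i ∈ range (q / 2 + 1),
    Polynomial.monomial (q - 2 * i) (c i * ((i : ℝ) * (Kq q) ^ (i - 1) * (2 * Kq q * (-1))))
    with hP
  have h1 : ∀ r : ℝ, 0 ≤ r → P.eval (-((2 * q + 1) * r)) = 0 := by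
    intro r hr
    set u : ℝ := √((r + 2) / (2 * q + 2)) with hu
    have hu2 : u ^ 2 = (r + 2) / (2 * q + 2) := by
      rw [hu, Real.sq_sqrt]
      positivity
    have hu0 : u ≠ 0 := by
      have : 0 < (r + 2) / (2 * (q : ℝ) + 2) := by positivity
      exact (Real.sqrt_pos.2 this).ne'
    have h2 := (mul_eq_zero.1 (hV u (u ^ 2 - 1))).resolve_left hu0
    have h3 : rr q u (u ^ 2 - 1) = r := by
      unfold rr
      have : 2 * (u ^ 2 - 1) + 2 * q * u ^ 2 = (2 * q + 2) * u ^ 2 - 2 := by ring
      rw [this, hu2]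
      field_simp
      ring
    have h4 : yy u (u ^ 2 - 1) = -1 := by unfold yy; ring
    rw [h3, h4] at h2
    rw [← h2, hP, Polynomial.eval_finsetSum]
    unfold Vy
    refine Finset.sum_congr rfl fun i _ => ?_
    rw [Polynomial.eval_monomial]
    have h5 : Kq q * (-1 : ℝ) ^ 2 = Kq q := by ring
    rw [h5]
    ring
  have h2 : P = 0 := by
    refine Polynomial.eq_zero_of_infinite_isRoot P ?_
    have h3 : Set.Iic (0 : ℝ) ⊆ {x | P.IsRoot x} := by
      intro x hx
      have h4 := h1 (-x / (2 * q + 1)) (div_nonneg (neg_nonneg.2 hx) (by positivity))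
      have h5 : -((2 * (q : ℝ) + 1) * (-x / (2 * q + 1))) = x := by
        field_simp
      rw [h5] at h4
      exact h4
    exact (Set.Iic_infinite 0).mono h3
  have h3 : P.coeff (q - 2 * i) = 0 := by rw [h2]; simp
  rw [hP, Polynomial.finsetSum_coeff] at h3
  rw [Finset.sum_eq_single i] at h3
  · rw [Polynomial.coeff_monomial, if_pos rfl] at h3
    have hi0 : (i : ℝ) ≠ 0 := by
      have : i ≠ 0 := by omega
      exact_mod_cast this
    rcases mul_eq_zero.1 h3 with h4 | h4
    · exact h4
    · exfalso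
      have h5 : (i : ℝ) * (Kq q) ^ (i - 1) * (2 * Kq q * (-1)) ≠ 0 :=
        mul_ne_zero (mul_ne_zero hi0 (pow_ne_zero _ hK.ne'))
          (mul_ne_zero (mul_ne_zero two_ne_zero hK.ne') (by norm_num))
      exact h5 h4
  · intro j hj hji
    rw [Polynomial.coeff_monomial, if_neg]
    have := Finset.mem_range.1 hj
    omega
  · intro hni
    exfalso
    apply hni
    rw [Finset.mem_range]
    omega

section trig

theorem hd_mul_cos {χ χ' : ℝ → ℝ} (h : ∀ t, HasDerivAt χ (χ' t) t) (N t : ℝ) :
    HasDerivAt (fun t => χ t * Real.cos (N * t))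
      (χ' t * Real.cos (N * t) - N * χ t * Real.sin (N * t)) t := by
  have h1 : HasDerivAt (fun t : ℝ => N * t) N t := by
    simpa using (hasDerivAt_id t).const_mul N
  refine ((h t).mul h1.cos).congr_deriv ?_
  ring

theorem hd_mul_sin {χ χ' : ℝ → ℝ} (h : ∀ t, HasDerivAt χ (χ' t) t) (N t : ℝ) :
    HasDerivAt (fun t => χ t * Real.sin (N * t))
      (χ' t * Real.sin (N * t) + N * χ t * Real.cos (N * t)) t := by
  have h1 : HasDerivAt (fun t : ℝ => N * t) N t := by
    simpa using (hasDerivAt_id t).const_mul N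
  refine ((h t).mul h1.sin).congr_deriv ?_
  ring

variable {χ : ℝ → ℝ} (hχ : ContDiff ℝ ∞ χ)

include hχ

theorem hd1 (t : ℝ) : HasDerivAt χ (deriv χ t) t := (hχ.differentiable (by simp) _).hasDerivAt

theorem deriv_cos (N : ℝ) : deriv (fun t => χ t * Real.cos (N * t)) =
    fun t => deriv χ t * Real.cos (N * t) - N * χ t * Real.sin (N * t) :=
  funext fun t => (hd_mul_cos (hd1 hχ) N t).deriv

theorem deriv_sin (N : ℝ) : deriv (fun t => χ t * Real.sin (N * t)) =
    fun t => deriv χ t * Real.sin (N * t) + N * χ t * Real.cos (N * t) :=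
  funext fun t => (hd_mul_sin (hd1 hχ) N t).deriv

theorem deriv2_cos (N : ℝ) : deriv (deriv (fun t => χ t * Real.cos (N * t))) =
    fun t => deriv (deriv χ) t * Real.cos (N * t) - 2 * N * deriv χ t * Real.sin (N * t) -
      N ^ 2 * χ t * Real.cos (N * t) := by
  rw [deriv_cos hχ]
  funext t
  have h1 := hd_mul_cos (hd1 (deriv_sm hχ)) N t
  have h2 := (hd_mul_sin (hd1 hχ) N t).const_mul N
  have h3 : (fun t => deriv χ t * Real.cos (N * t) - N * χ t * Real.sin (N * t)) =
      fun t => deriv χ t * Real.cos (N * t) - N * (χ t * Real.sin (N * t)) := by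
    funext t; ring
  rw [h3]
  refine ((h1.sub h2).congr_deriv ?_).deriv
  ring

theorem deriv2_sin (N : ℝ) : deriv (deriv (fun t => χ t * Real.sin (N * t))) =
    fun t => deriv (deriv χ) t * Real.sin (N * t) + 2 * N * deriv χ t * Real.cos (N * t) -
      N ^ 2 * χ t * Real.sin (N * t) := by
  rw [deriv_sin hχ]
  funext t
  have h1 := hd_mul_sin (hd1 (deriv_sm hχ)) N t
  have h2 := (hd_mul_cos (hd1 hχ) N t).const_mul N
  have h3 : (fun t => deriv χ t * Real.sin (N * t) + N * χ t * Real.cos (N * t)) =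
      fun t => deriv χ t * Real.sin (N * t) + N * (χ t * Real.cos (N * t)) := by
    funext t; ring
  rw [h3]
  refine ((h1.add h2).congr_deriv ?_).deriv
  ring

theorem wron (N t : ℝ) :
    deriv (deriv (fun t => χ t * Real.cos (N * t))) t *
      deriv (fun t => χ t * Real.sin (N * t)) t -
      deriv (fun t => χ t * Real.cos (N * t)) t *
      deriv (deriv (fun t => χ t * Real.sin (N * t))) t =
    N * (χ t * deriv (deriv χ) t - 2 * deriv χ t ^ 2 - N ^ 2 * χ t ^ 2) := by
  rw [deriv2_cos hχ, deriv2_sin hχ, deriv_cos hχ, deriv_sin hχ]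
  have h := Real.sin_sq_add_cos_sq (N * t)
  linear_combination (N * (χ t * deriv (deriv χ) t - 2 * deriv χ t ^ 2 - N ^ 2 * χ t ^ 2)) * h

end trig

/-- Smooth and periodic. -/
def PP (f : ℝ → ℝ) : Prop := ContDiff ℝ ∞ f ∧ ∀ t, f (t + 1) = f t

theorem pp_cos (k : ℕ) : PP (fun t => Real.cos (2 * Real.pi * k * t)) := by
  refine ⟨Real.contDiff_cos.comp (contDiff_const.mul contDiff_id), fun t => ?_⟩
  have h : 2 * Real.pi * k * (t + 1) = 2 * Real.pi * k * t + k * (2 * Real.pi) := by ring
  simp only [h]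
  exact Real.cos_add_nat_mul_two_pi _ _

theorem pp_sin (k : ℕ) : PP (fun t => Real.sin (2 * Real.pi * k * t)) := by
  refine ⟨Real.contDiff_sin.comp (contDiff_const.mul contDiff_id), fun t => ?_⟩
  have h : 2 * Real.pi * k * (t + 1) = 2 * Real.pi * k * t + k * (2 * Real.pi) := by ring
  simp only [h]
  exact Real.sin_add_nat_mul_two_pi _ _

theorem PP.mul {f g : ℝ → ℝ} (hf : PP f) (hg : PP g) : PP (fun t => f t * g t) :=
  ⟨hf.1.mul hg.1, fun t => by simp only [hf.2, hg.2]⟩

theorem PP.add {f g : ℝ → ℝ} (hf : PP f) (hg : PP g) : PP (fun t => f t + g t) :=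
  ⟨hf.1.add hg.1, fun t => by simp only [hf.2, hg.2]⟩

theorem PP.const (r : ℝ) : PP (fun _ => r) := ⟨contDiff_const, fun _ => rfl⟩

theorem PP.deriv {f : ℝ → ℝ} (hf : PP f) : PP (deriv f) := ⟨deriv_sm hf.1, deriv_per hf.2⟩

/-- The variational argument. -/
theorem vy_of_int {q : ℕ} {c : ℕ → ℝ}
    (H : ∀ f g h : ℝ → ℝ, PP f → PP g → PP h →
      ∫ x in (0 : ℝ)..1, deriv f x *
        Vy q c (rr q (deriv f x) (deriv (deriv f) x)) (yy (deriv f x) (deriv (deriv f) x)) *
        (deriv (deriv g) x * deriv h x - deriv g x * deriv (deriv h) x) = 0)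
    (u p : ℝ) : u * Vy q c (rr q u p) (yy u p) = 0 := by
  have main : ∀ f, PP f → ∀ x ∈ Set.Icc (0 : ℝ) 1, deriv f x *
      Vy q c (rr q (deriv f x) (deriv (deriv f) x)) (yy (deriv f x) (deriv (deriv f) x)) = 0 := by
    intro f hf
    set M : ℝ → ℝ := fun x => deriv f x *
      Vy q c (rr q (deriv f x) (deriv (deriv f) x)) (yy (deriv f x) (deriv (deriv f) x)) with hM
    have hMs : ContDiff ℝ ∞ M := (deriv_sm hf.1).mul (sm_Vy q c (sm_rr q hf.1) (sm_yy hf.1))
    have hMp : PP M := by
      refine ⟨hMs, fun t => ?_⟩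
      simp only [hM, deriv_per hf.2, deriv_per (deriv_per hf.2)]
    have h1 : ∀ χ, PP χ → ∫ x in (0 : ℝ)..1, M x * χ x ^ 2 = 0 := by
      intro χ hχ
      have c0 := hMs.continuous
      have c1 := hχ.1.continuous
      have c2 := (deriv_sm hχ.1).continuous
      have c3 := (deriv_sm (deriv_sm hχ.1)).continuous
      have h2 : ∀ k : ℕ, 0 < k → ∫ x in (0 : ℝ)..1, M x * (χ x * deriv (deriv χ) x -
          2 * deriv χ x ^ 2 - (2 * Real.pi * k) ^ 2 * χ x ^ 2) = 0 := by
        intro k hk
        have h3 := H f _ _ hf (hχ.mul (pp_cos k)) (hχ.mul (pp_sin k))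
        have h4 : ∀ x, deriv f x * Vy q c (rr q (deriv f x) (deriv (deriv f) x))
            (yy (deriv f x) (deriv (deriv f) x)) *
            (deriv (deriv (fun t => χ t * Real.cos (2 * Real.pi * k * t))) x *
              deriv (fun t => χ t * Real.sin (2 * Real.pi * k * t)) x -
            deriv (fun t => χ t * Real.cos (2 * Real.pi * k * t)) x *
              deriv (deriv (fun t => χ t * Real.sin (2 * Real.pi * k * t))) x) =
            (2 * Real.pi * k) * (M x * (χ x * deriv (deriv χ) x -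
          2 * deriv χ x ^ 2 - (2 * Real.pi * k) ^ 2 * χ x ^ 2)) := by
          intro x
          rw [wron hχ.1]
          simp only [hM]
          ring
        simp only [h4] at h3
        rw [intervalIntegral.integral_const_mul] at h3
        refine (mul_eq_zero.1 h3).resolve_left ?_
        have : (0 : ℝ) < k := by exact_mod_cast hk
        positivity
      have h5 := h2 1 one_pos
      have h6 := h2 2 two_pos
      have c4 : ∀ k : ℕ, IntervalIntegrable (fun x => M x * (χ x * deriv (deriv χ) x -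
          2 * deriv χ x ^ 2 - (2 * Real.pi * k) ^ 2 * χ x ^ 2)) volume 0 1 := by
        intro k
        refine Continuous.intervalIntegrable ?_ _ _
        fun_prop
      have h7 := intervalIntegral.integral_sub (c4 1) (c4 2)
      rw [h5, h6, sub_zero] at h7
      have h8 : ∀ x, M x * (χ x * deriv (deriv χ) x -
          2 * deriv χ x ^ 2 - (2 * Real.pi * (1 : ℕ)) ^ 2 * χ x ^ 2) -
          M x * (χ x * deriv (deriv χ) x -
          2 * deriv χ x ^ 2 - (2 * Real.pi * (2 : ℕ)) ^ 2 * χ x ^ 2) =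
          12 * Real.pi ^ 2 * (M x * χ x ^ 2) := by
        intro x
        push_cast
        ring
      simp only [h8] at h7
      rw [intervalIntegral.integral_const_mul] at h7
      refine (mul_eq_zero.1 h7).resolve_left ?_
      have := Real.pi_pos
      positivity
    have h2 := h1 _ (hMp.add (PP.const 1))
    have h3 := h1 _ (hMp.add (PP.const (-1)))
    have c0 := hMs.continuous
    have c1 : ∀ r : ℝ, IntervalIntegrable (fun x => M x * (M x + r) ^ 2) volume 0 1 := by
      intro r
      refine Continuous.intervalIntegrable ?_ _ _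
      fun_prop
    have h4 := intervalIntegral.integral_sub (c1 1) (c1 (-1))
    rw [h2, h3, sub_zero] at h4
    have h5 : ∀ x, M x * (M x + 1) ^ 2 - M x * (M x + -1) ^ 2 = 4 * M x ^ 2 := fun x => by ring
    simp only [h5] at h4
    rw [intervalIntegral.integral_const_mul] at h4
    have h6 : ∫ x in (0 : ℝ)..1, M x ^ 2 = 0 := (mul_eq_zero.1 h4).resolve_left (by norm_num)
    intro x hx
    by_contra hne
    have h7 : 0 < ∫ x in (0 : ℝ)..1, M x ^ 2 := by
      refine intervalIntegral.integral_pos one_pos (c0.pow 2).continuousOn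
        (fun x _ => sq_nonneg _) ⟨x, hx, ?_⟩
      have : M x ≠ 0 := hne
      positivity
    exact h7.ne' h6
  -- a function with given first and second derivative at zero
  have hpi := Real.pi_pos
  set A : ℝ := u / (2 * Real.pi) with hA
  set B : ℝ := -p / (2 * Real.pi) ^ 2 with hB
  have hf : PP (fun t => A * Real.sin (2 * Real.pi * (1 : ℕ) * t) +
      B * Real.cos (2 * Real.pi * (1 : ℕ) * t)) :=
    ((PP.const A).mul (pp_sin 1)).add ((PP.const B).mul (pp_cos 1))
  have h1 := main _ hf 0 (by simp)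
  have hcA : ContDiff ℝ ∞ (fun _ : ℝ => A) := contDiff_const
  have hcB : ContDiff ℝ ∞ (fun _ : ℝ => B) := contDiff_const
  have d1 : deriv (fun t => A * Real.sin (2 * Real.pi * (1 : ℕ) * t) +
      B * Real.cos (2 * Real.pi * (1 : ℕ) * t)) = fun t =>
      2 * Real.pi * A * Real.cos (2 * Real.pi * t) -
        2 * Real.pi * B * Real.sin (2 * Real.pi * t) := by
    funext t
    have e1 := hd_mul_sin (fun t => hasDerivAt_const t A) (2 * Real.pi * (1 : ℕ)) t
    have e2 := hd_mul_cos (fun t => hasDerivAt_const t B) (2 * Real.pi * (1 : ℕ)) t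
    refine ((e1.add e2).congr_deriv ?_).deriv
    push_cast
    simp only [mul_one]
    ring
  have d2 : deriv (deriv (fun t => A * Real.sin (2 * Real.pi * (1 : ℕ) * t) +
      B * Real.cos (2 * Real.pi * (1 : ℕ) * t))) 0 = -(2 * Real.pi) ^ 2 * B := by
    rw [d1]
    have e1 := hd_mul_cos (fun t => hasDerivAt_const t (2 * Real.pi * A)) (2 * Real.pi) 0
    have e2 := hd_mul_sin (fun t => hasDerivAt_const t (2 * Real.pi * B)) (2 * Real.pi) 0
    refine ((e1.sub e2).congr_deriv ?_).deriv
    simp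
    ring
  have d3 : deriv (fun t => A * Real.sin (2 * Real.pi * (1 : ℕ) * t) +
      B * Real.cos (2 * Real.pi * (1 : ℕ) * t)) 0 = 2 * Real.pi * A := by
    rw [d1]
    simp
  rw [d2, d3] at h1
  have h2 : 2 * Real.pi * A = u := by rw [hA]; field_simp
  have h3 : -(2 * Real.pi) ^ 2 * B = p := by rw [hB]; field_simp
  rw [h2, h3] at h1
  exact h1

end ZDV
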