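import Pool.Agent.ZDV.Final

set_option autoImplicit false
set_option linter.unusedSimpArgs false

/-!
The main theorem: no primitive.
-/

namespace ZDV

open Finset Filter Topology MeasureTheory
open scoped ContDiff

section

variable {q : ℕ} {c : ℕ → ℝ} {ℓ : SP (2 * q + 1) →ₗ[ℝ] ℝ}
  {b : SP (2 * q + 1) →ₗ[ℝ] SP (2 * q + 1) →ₗ[ℝ] ℝ} (hb : ∀ v w, b v w = b w v)
  {Φ : SP (2 * q + 1) → ℝ}
  (hΦ : ∀ v w : SP (2 * q + 1), HasDerivAt (fun ε : ℝ => Φ (v + ε • w))
    ((∫ x in Set.Icc (0 : E (2 * q + 1)) 1,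
      (w : E (2 * q + 1) → ℝ) x * dens q c (cnf v flat) x) - ℓ w - b v w) 0)

include hb hΦ

theorem dP {f g h : ℝ → ℝ} (hf : PP f) (hg : PP g) (hh : PP h) (s t : ℝ) :
    HasDerivAt (fun s => Φ (lft f hf.1 hf.2 + s • lft g hg.1 hg.2 + t • lft h hh.1 hh.2) +
      ℓ (lft f hf.1 hf.2 + s • lft g hg.1 hg.2 + t • lft h hh.1 hh.2) +
      1 / 2 * b (lft f hf.1 hf.2 + s • lft g hg.1 hg.2 + t • lft h hh.1 hh.2)
        (lft f hf.1 hf.2 + s • lft g hg.1 hg.2 + t • lft h hh.1 hh.2))
      (∫ x in (0 : ℝ)..1, FA q c (deriv f) (deriv (deriv f)) (deriv g) (deriv (deriv g))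
        (deriv h) (deriv (deriv h)) s t x) s := by
  set F := lft (m := 2 * q + 1) f hf.1 hf.2 with hF
  set G := lft (m := 2 * q + 1) g hg.1 hg.2 with hG
  set K := lft (m := 2 * q + 1) h hh.1 hh.2 with hK
  have d1 : HasDerivAt (fun r : ℝ => Φ (F + r • G + t • K))
      ((∫ x in Set.Icc (0 : E (2 * q + 1)) 1,
      (G : E (2 * q + 1) → ℝ) x * dens q c (cnf (F + s • G + t • K : SP (2 * q + 1)) flat) x) -
      ℓ G - b (F + s • G + t • K) G) s := by
    have e1 : HasDerivAt (fun ε : ℝ => Φ (F + s • G + t • K + ε • G))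
      ((∫ x in Set.Icc (0 : E (2 * q + 1)) 1,
      (G : E (2 * q + 1) → ℝ) x * dens q c (cnf (F + s • G + t • K : SP (2 * q + 1)) flat) x) -
      ℓ G - b (F + s • G + t • K) G) (s - s) := by
      rw [sub_self]
      exact hΦ (F + s • G + t • K) G
    have e2 := e1.comp_sub_const s s
    refine e2.congr_of_eventuallyEq (Eventually.of_forall fun r => ?_)
    have e3 : F + r • G + t • K = F + s • G + t • K + (r - s) • G := by
      apply Subtype.ext
      funext x
      simp only [Submodule.coe_add, Submodule.coe_smul, Pi.add_apply, Pi.smul_apply, smul_eq_mul]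
      ring
    simp only [e3]
  have d2 : HasDerivAt (fun r : ℝ => ℓ (F + r • G + t • K)) (ℓ G) s := by
    have e1 : (fun r : ℝ => ℓ (F + r • G + t • K)) = fun r => ℓ F + r * ℓ G + t * ℓ K := by
      funext r
      simp only [map_add, map_smul, smul_eq_mul]
    rw [e1]
    have e2 := (((hasDerivAt_id s).mul_const (ℓ G)).const_add (ℓ F)).add_const (t * ℓ K)
    simpa using e2
  have d3 : HasDerivAt (fun r : ℝ => 1 / 2 * b (F + r • G + t • K) (F + r • G + t • K))
      (b (F + s • G + t • K) G) s := by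
    have e1 : (fun r : ℝ => 1 / 2 * b (F + r • G + t • K) (F + r • G + t • K)) =
        fun r => 1 / 2 * b (F + t • K) (F + t • K) + r * b (F + t • K) G +
          r ^ 2 * (1 / 2 * b G G) := by
      funext r
      simp only [map_add, map_smul, smul_eq_mul, LinearMap.add_apply, LinearMap.smul_apply]
      rw [hb G F, hb G K, hb K F]
      ring
    rw [e1]
    have e2 := (((hasDerivAt_id s).mul_const (b (F + t • K) G)).const_add
      (1 / 2 * b (F + t • K) (F + t • K))).add
      ((hasDerivAt_pow 2 s).mul_const (1 / 2 * b G G))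
    refine e2.congr_deriv ?_
    simp only [map_add, map_smul, smul_eq_mul, LinearMap.add_apply, LinearMap.smul_apply]
    push_cast
    ring
  refine ((d1.add d2).add d3).congr_deriv ?_
  have hs : PP (fun x => f x + s * g x + t * h x) :=
    (hf.add ((PP.const s).mul hg)).add ((PP.const t).mul hh)
  have e1 : cnf ((F + s • G + t • K : SP (2 * q + 1)) : E (2 * q + 1) → ℝ) flat =
      mf (fun x => f x + s * g x + t * h x) := rfl
  have e2 : ∀ x : E (2 * q + 1), (G : E (2 * q + 1) → ℝ) x = g (x 0) := fun x => rfl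
  rw [e1]
  simp only [e2]
  rw [int_dens q c hs.1 hg.1 hs.2 hg.2]
  have e3 : deriv (fun x => f x + s * g x + t * h x) =
      fun x => deriv f x + s * deriv g x + t * deriv h x := by
    funext x
    exact (((hd1 hf.1 x).add ((hd1 hg.1 x).const_mul s)).add ((hd1 hh.1 x).const_mul t)).deriv
  have e4 : deriv (deriv (fun x => f x + s * g x + t * h x)) =
      fun x => deriv (deriv f) x + s * deriv (deriv g) x + t * deriv (deriv h) x := by
    rw [e3]
    funext x
    exact (((hd1 (deriv_sm hf.1) x).add ((hd1 (deriv_sm hg.1) x).const_mul s)).add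
      ((hd1 (deriv_sm hh.1) x).const_mul t)).deriv
  rw [e4, e3]
  have e5 : ∀ x, FA q c (deriv f) (deriv (deriv f)) (deriv g) (deriv (deriv g))
        (deriv h) (deriv (deriv h)) s t x =
      (deriv (deriv g) x + 2 * q * (deriv f x + s * deriv g x + t * deriv h x) * deriv g x) *
      V q c (rr q (deriv f x + s * deriv g x + t * deriv h x)
        (deriv (deriv f) x + s * deriv (deriv g) x + t * deriv (deriv h) x))
      (yy (deriv f x + s * deriv g x + t * deriv h x)
        (deriv (deriv f) x + s * deriv (deriv g) x + t * deriv (deriv h) x)) := fun x => by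
    rw [FA_def]
  simp only [e5]
  ring

theorem no_primitive {i : ℕ} (hi : 1 ≤ i) (hiq : 2 * i ≤ q) : c i = 0 := by
  refine vy_zero (vy_of_int ?_) hi hiq
  intro f g h hf hg hh
  refine no_prim (deriv_sm hf.1).continuous (deriv_sm (deriv_sm hf.1)).continuous
    (deriv_sm hg.1).continuous (deriv_sm (deriv_sm hg.1)).continuous
    (deriv_sm hh.1).continuous (deriv_sm (deriv_sm hh.1)).continuous
    (P := fun s t => Φ (lft f hf.1 hf.2 + s • lft g hg.1 hg.2 + t • lft h hh.1 hh.2) +
      ℓ (lft f hf.1 hf.2 + s • lft g hg.1 hg.2 + t • lft h hh.1 hh.2) +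
      1 / 2 * b (lft f hf.1 hf.2 + s • lft g hg.1 hg.2 + t • lft h hh.1 hh.2)
        (lft f hf.1 hf.2 + s • lft g hg.1 hg.2 + t • lft h hh.1 hh.2))
    (fun s t => dP hb hΦ hf hg hh s t) (fun s t => ?_)
  have h1 := dP hb hΦ hf hh hg t s
  have h2 : ∀ r : ℝ, lft (m := 2 * q + 1) f hf.1 hf.2 + r • lft h hh.1 hh.2 +
      s • lft g hg.1 hg.2 = lft f hf.1 hf.2 + s • lft g hg.1 hg.2 + r • lft h hh.1 hh.2 :=
    fun r => add_right_comm _ _ _
  simp only [h2] at h1
  exact h1

end

end ZDV
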