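import Pool.Agent.ZDV.Curv

set_option autoImplicit false
set_option linter.unusedSimpArgs false

/-!
Functions of one coordinate: the integral of `eta * dens` as a one dimensional integral.
-/

namespace ZDV

open Finset Filter Topology MeasureTheory
open scoped ContDiff

/-- The constant in the trace free Ricci tensor. -/
noncomputable def Kq (q : ℕ) : ℝ := (2 * q + 1) * (2 * q) ^ 2 / (2 * q + 2)

/-- The polynomial in `r = 2 f'' + 2 q f' ^ 2` and `y = f'' - f' ^ 2`. -/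
noncomputable def V (q : ℕ) (c : ℕ → ℝ) (r y : ℝ) : ℝ :=
  ∑ i ∈ range (q / 2 + 1), c i * (-((2 * q + 1) * r)) ^ (q - 2 * i) * (Kq q * y ^ 2) ^ i

/-- The derivative in `r`. -/
noncomputable def Vr (q : ℕ) (c : ℕ → ℝ) (r y : ℝ) : ℝ :=
  ∑ i ∈ range (q / 2 + 1), c i * (((q - 2 * i : ℕ) : ℝ) *
    (-((2 * q + 1) * r)) ^ (q - 2 * i - 1) * (-(2 * q + 1))) * (Kq q * y ^ 2) ^ i

/-- The derivative in `y`. -/
noncomputable def Vy (q : ℕ) (c : ℕ → ℝ) (r y : ℝ) : ℝ :=
  ∑ i ∈ range (q / 2 + 1), c i * (-((2 * q + 1) * r)) ^ (q - 2 * i) *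
    ((i : ℝ) * (Kq q * y ^ 2) ^ (i - 1) * (2 * Kq q * y))

theorem hasDerivAt_V (q : ℕ) (c : ℕ → ℝ) {r y : ℝ → ℝ} {r' y' t : ℝ}
    (hr : HasDerivAt r r' t) (hy : HasDerivAt y y' t) :
    HasDerivAt (fun t => V q c (r t) (y t)) (Vr q c (r t) (y t) * r' + Vy q c (r t) (y t) * y')
      t := by
  unfold V Vr Vy
  rw [Finset.sum_mul, Finset.sum_mul, ← Finset.sum_add_distrib]
  refine HasDerivAt.fun_sum fun i _ => ?_
  have h1 := ((hr.const_mul (2 * (q : ℝ) + 1)).neg.pow (q - 2 * i)).const_mul (c i)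
  have h2 := ((hy.pow 2).const_mul (Kq q)).pow i
  refine (h1.mul h2).congr_deriv ?_
  simp only [Pi.neg_apply, Pi.pow_apply]
  push_cast
  ring

theorem sm_V (q : ℕ) (c : ℕ → ℝ) {r y : ℝ → ℝ} (hr : ContDiff ℝ ∞ r) (hy : ContDiff ℝ ∞ y) :
    ContDiff ℝ ∞ (fun t => V q c (r t) (y t)) := by
  unfold V
  exact ContDiff.sum fun i _ => (contDiff_const.mul ((contDiff_const.mul hr).neg.pow _)).mul
    ((contDiff_const.mul (hy.pow 2)).pow _)

theorem sm_Vy (q : ℕ) (c : ℕ → ℝ) {r y : ℝ → ℝ} (hr : ContDiff ℝ ∞ r) (hy : ContDiff ℝ ∞ y) :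
    ContDiff ℝ ∞ (fun t => Vy q c (r t) (y t)) := by
  unfold Vy
  exact ContDiff.sum fun i _ => (contDiff_const.mul ((contDiff_const.mul hr).neg.pow _)).mul
    ((contDiff_const.mul ((contDiff_const.mul (hy.pow 2)).pow _)).mul (contDiff_const.mul hy))

/-- `2 f'' + 2 q f' ^ 2` -/
noncomputable def rr (q : ℕ) (u p : ℝ) : ℝ := 2 * p + 2 * q * u ^ 2

/-- `f'' - f' ^ 2` -/
noncomputable def yy (u p : ℝ) : ℝ := p - u ^ 2

theorem mf_scT (q : ℕ) (c : ℕ → ℝ) {f : ℝ → ℝ} (hf : ContDiff ℝ ∞ f) (x : E (2 * q + 1)) :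
    scT q c (mf f) x = Real.exp (-(2 * q * f (x 0))) *
      V q c (rr q (deriv f (x 0)) (deriv (deriv f) (x 0)))
        (yy (deriv f (x 0)) (deriv (deriv f) (x 0))) := by
  unfold scT V
  rw [Finset.mul_sum]
  refine Finset.sum_congr rfl fun i hi => ?_
  have hi2 : 2 * i ≤ q := by
    have := Finset.mem_range.1 hi
    omega
  rw [mf_scal hf, mf_ric0Sq hf]
  set u := deriv f (x 0)
  set p := deriv (deriv f) (x 0)
  have h1 : -(((2 * q + 1 : ℕ) : ℝ) * Real.exp (-(2 * f (x 0))) *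
      (2 * p + (((2 * q + 1 : ℕ) : ℝ) - 1) * u ^ 2)) =
      Real.exp (-(2 * f (x 0))) * (-((2 * q + 1) * rr q u p)) := by
    unfold rr
    push_cast
    ring
  have h2 : ((2 * q + 1 : ℕ) : ℝ) * (((2 * q + 1 : ℕ) : ℝ) - 1) ^ 2 /
      (((2 * q + 1 : ℕ) : ℝ) + 1) * Real.exp (-(4 * f (x 0))) * (p - u ^ 2) ^ 2 =
      Real.exp (-(4 * f (x 0))) * (Kq q * yy u p ^ 2) := by
    unfold Kq yy
    push_cast
    have h3 : (2 * (q : ℝ) + 1 + 1) = 2 * q + 2 := by ring
    rw [h3]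
    ring
  rw [h1, h2, mul_pow, mul_pow, ← Real.exp_nat_mul, ← Real.exp_nat_mul]
  have h4 : Real.exp (((q - 2 * i : ℕ) : ℝ) * -(2 * f (x 0))) *
      Real.exp ((i : ℝ) * -(4 * f (x 0))) = Real.exp (-(2 * q * f (x 0))) := by
    rw [← Real.exp_add]
    congr 1
    rw [Nat.cast_sub hi2]
    push_cast
    ring
  rw [← h4]
  ring

/-- The function `G` with `T = G (x 0)`. -/
noncomputable def GG (q : ℕ) (c : ℕ → ℝ) (f : ℝ → ℝ) (t : ℝ) : ℝ :=
  Real.exp (-(2 * q * f t)) * V q c (rr q (deriv f t) (deriv (deriv f) t))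
    (yy (deriv f t) (deriv (deriv f) t))

theorem sm_rr (q : ℕ) {f : ℝ → ℝ} (hf : ContDiff ℝ ∞ f) :
    ContDiff ℝ ∞ (fun t => rr q (deriv f t) (deriv (deriv f) t)) := by
  unfold rr
  exact (contDiff_const.mul (deriv_sm (deriv_sm hf))).add
    (contDiff_const.mul ((deriv_sm hf).pow 2))

theorem sm_yy {f : ℝ → ℝ} (hf : ContDiff ℝ ∞ f) :
    ContDiff ℝ ∞ (fun t => yy (deriv f t) (deriv (deriv f) t)) := by
  unfold yy
  exact (deriv_sm (deriv_sm hf)).sub ((deriv_sm hf).pow 2)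

theorem sm_GG (q : ℕ) (c : ℕ → ℝ) {f : ℝ → ℝ} (hf : ContDiff ℝ ∞ f) :
    ContDiff ℝ ∞ (GG q c f) := by
  unfold GG
  exact (Real.contDiff_exp.comp (contDiff_const.mul hf).neg).mul
    (sm_V q c (sm_rr q hf) (sm_yy hf))

/-- `exp (2 q f) G'` -/
noncomputable def HH (q : ℕ) (c : ℕ → ℝ) (f : ℝ → ℝ) (t : ℝ) : ℝ :=
  Real.exp (2 * q * f t) * deriv (GG q c f) t

theorem sm_HH (q : ℕ) (c : ℕ → ℝ) {f : ℝ → ℝ} (hf : ContDiff ℝ ∞ f) :
    ContDiff ℝ ∞ (HH q c f) := by
  unfold HH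
  exact (Real.contDiff_exp.comp (contDiff_const.mul hf)).mul (deriv_sm (sm_GG q c hf))

theorem mf_grd (q : ℕ) (c : ℕ → ℝ) {f : ℝ → ℝ} (hf : ContDiff ℝ ∞ f) (x : E (2 * q + 1))
    (a : Fin (2 * q + 1 + 1)) :
    grd (mf f) (scT q c (mf f)) a x = dl a 0 * HH q c f (x 0) := by
  have h1 : scT q c (mf f) = fun x : E (2 * q + 1) => GG q c f (x 0) := by
    funext x
    exact mf_scT q c hf x
  have h2 : ∀ b : Fin (2 * q + 1 + 1), pd b (fun x : E (2 * q + 1) => GG q c f (x 0)) x =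
      dl b 0 * deriv (GG q c f) (x 0) := fun b =>
    pd_comp0 (((sm_GG q c hf).differentiable (by simp) _).hasDerivAt) b
  unfold grd
  rw [h1, mf_det]
  simp only [h2, mf_inv]
  have h3 : ∀ b : Fin (2 * q + 1 + 1), Real.exp (-(2 * f (x 0))) * dl a b *
      (dl b 0 * deriv (GG q c f) (x 0)) =
      dl a b * (Real.exp (-(2 * f (x 0))) * (dl b 0 * deriv (GG q c f) (x 0))) :=
    fun b => by ring
  simp only [h3]
  rw [sum_dl]
  unfold HH
  have h4 : Real.exp ((((2 * q + 1 : ℕ) : ℝ) + 1) * f (x 0)) * Real.exp (-(2 * f (x 0))) =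
      Real.exp (2 * q * f (x 0)) := by
    rw [← Real.exp_add]
    congr 1
    push_cast
    ring
  rw [← h4]
  ring

theorem mf_isMet {m : ℕ} {f : ℝ → ℝ} (hf : ContDiff ℝ ∞ f) : IsMet (mf f : Met m) := by
  refine isMet_cnf isMet_flat ?_
  exact hf.comp (contDiff_apply ℝ ℝ (0 : Fin (m + 1)))

theorem mf_dens (q : ℕ) (c : ℕ → ℝ) {f : ℝ → ℝ} (hf : ContDiff ℝ ∞ f) (x : E (2 * q + 1)) :
    dens q c (mf f) x = deriv (HH q c f) (x 0) := by
  rw [dens_eq (mf_isMet hf)]
  have h1 : ∀ a, grd (mf f) (scT q c (mf f)) a =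
      fun x : E (2 * q + 1) => (fun t => dl a 0 * HH q c f t) (x 0) := by
    intro a
    funext x
    exact mf_grd q c hf x a
  have h2 : ∀ a, pd a (grd (mf f) (scT q c (mf f)) a) x =
      dl a 0 * (dl a 0 * deriv (HH q c f) (x 0)) := by
    intro a
    rw [h1 a]
    exact pd_comp0 (h := fun t => dl a 0 * HH q c f t)
      ((((sm_HH q c hf).differentiable (by simp) _).hasDerivAt).const_mul _) a
  simp only [h2]
  rw [sum_dl']
  simp [dl]

/-- The integral over the cube of a function of the first coordinate. -/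
theorem int_cube {m : ℕ} {h : ℝ → ℝ} (hh : Continuous h) :
    ∫ x in Set.Icc (0 : E m) 1, h (x 0) = ∫ t in (0 : ℝ)..1, h t := by
  have h1 : (volume : Measure (E m)).restrict (Set.Icc (0 : E m) 1) =
      Measure.pi (fun _ : Fin (m + 1) => (volume : Measure ℝ).restrict (Set.Icc (0 : ℝ) 1)) := by
    have h2 : Set.Icc (0 : E m) 1 = Set.pi Set.univ (fun _ => Set.Icc (0 : ℝ) 1) :=
      (Set.pi_univ_Icc _ _).symm
    rw [h2, volume_pi, Measure.restrict_pi_pi]
  have : IsProbabilityMeasure ((volume : Measure ℝ).restrict (Set.Icc (0 : ℝ) 1)) := by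
    constructor
    simp
  have h3 := measurePreserving_eval
    (fun _ : Fin (m + 1) => (volume : Measure ℝ).restrict (Set.Icc (0 : ℝ) 1)) 0
  rw [h1, intervalIntegral.integral_of_le zero_le_one, ← integral_Icc_eq_integral_Ioc]
  have h4 := integral_map (μ := Measure.pi (fun _ : Fin (m + 1) =>
    (volume : Measure ℝ).restrict (Set.Icc (0 : ℝ) 1))) (φ := Function.eval (0 : Fin (m + 1)))
    h3.measurable.aemeasurable (f := h) hh.aestronglyMeasurable
  rw [h3.map_eq] at h4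
  exact h4.symm

theorem deriv_per {f : ℝ → ℝ} (hp : ∀ t, f (t + 1) = f t) (t : ℝ) :
    deriv f (t + 1) = deriv f t := by
  have h1 : (fun s => f (s + 1)) = f := funext hp
  have h2 := deriv_comp_add_const f 1 t
  rw [h1] at h2
  exact h2.symm

/-- Two integrations by parts. -/
theorem int_dens (q : ℕ) (c : ℕ → ℝ) {f η : ℝ → ℝ} (hf : ContDiff ℝ ∞ f)
    (hη : ContDiff ℝ ∞ η) (hfp : ∀ t, f (t + 1) = f t) (hηp : ∀ t, η (t + 1) = η t) :
    ∫ x in Set.Icc (0 : E (2 * q + 1)) 1, η (x 0) * dens q c (mf f) x =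
      ∫ t in (0 : ℝ)..1, (deriv (deriv η) t + 2 * q * deriv f t * deriv η t) *
        V q c (rr q (deriv f t) (deriv (deriv f) t)) (yy (deriv f t) (deriv (deriv f) t)) := by
  have hH := sm_HH q c hf
  have hG := sm_GG q c hf
  have h1 : ∀ x : E (2 * q + 1), η (x 0) * dens q c (mf f) x =
      (fun t => η t * deriv (HH q c f) t) (x 0) := fun x => by
    rw [mf_dens q c hf]
  have hc1 : Continuous (fun t => η t * deriv (HH q c f) t) :=
    hη.continuous.mul (deriv_sm hH).continuous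
  simp only [h1]
  rw [int_cube (h := fun t => η t * deriv (HH q c f) t) hc1]
  have hc2 : Continuous (fun t => (deriv (deriv η) t + 2 * q * deriv f t * deriv η t) *
      V q c (rr q (deriv f t) (deriv (deriv f) t)) (yy (deriv f t) (deriv (deriv f) t))) := by
    refine Continuous.mul ?_ (sm_V q c (sm_rr q hf) (sm_yy hf)).continuous
    exact (deriv_sm (deriv_sm hη)).continuous.add
      ((continuous_const.mul (deriv_sm hf).continuous).mul (deriv_sm hη).continuous)
  rw [← sub_eq_zero, ← intervalIntegral.integral_sub (hc1.intervalIntegrable _ _)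
    (hc2.intervalIntegrable _ _)]
  have h2 : ∀ t ∈ Set.uIcc (0 : ℝ) 1, HasDerivAt
      (fun t => η t * HH q c f t - deriv η t * (Real.exp (2 * q * f t) * GG q c f t))
      (η t * deriv (HH q c f) t - (deriv (deriv η) t + 2 * q * deriv f t * deriv η t) *
      V q c (rr q (deriv f t) (deriv (deriv f) t)) (yy (deriv f t) (deriv (deriv f) t))) t := by
    intro t _
    have d1 : HasDerivAt η (deriv η t) t := (hη.differentiable (by simp) _).hasDerivAt
    have d2 : HasDerivAt (deriv η) (deriv (deriv η) t) t :=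
      ((deriv_sm hη).differentiable (by simp) _).hasDerivAt
    have d3 : HasDerivAt (HH q c f) (deriv (HH q c f) t) t :=
      (hH.differentiable (by simp) _).hasDerivAt
    have d4 : HasDerivAt (GG q c f) (deriv (GG q c f) t) t :=
      (hG.differentiable (by simp) _).hasDerivAt
    have d5 : HasDerivAt f (deriv f t) t := (hf.differentiable (by simp) _).hasDerivAt
    have d6 := (d5.const_mul (2 * (q : ℝ))).exp
    refine ((d1.mul d3).sub (d2.mul (d6.mul d4))).congr_deriv ?_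
    have h3 : Real.exp (2 * q * f t) * GG q c f t =
        V q c (rr q (deriv f t) (deriv (deriv f) t)) (yy (deriv f t) (deriv (deriv f) t)) := by
      unfold GG
      rw [← mul_assoc, ← Real.exp_add]
      simp
    have h4 : HH q c f t = Real.exp (2 * q * f t) * deriv (GG q c f) t := rfl
    rw [← h3, h4]
    simp only [Pi.mul_apply]
    ring
  rw [intervalIntegral.integral_eq_sub_of_hasDerivAt h2
    ((hc1.sub hc2).intervalIntegrable _ _)]
  have hp1 := deriv_per hfp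
  have hp2 := deriv_per hp1
  have hq1 := deriv_per hηp
  have hGp : ∀ t, GG q c f (t + 1) = GG q c f t := by
    intro t
    unfold GG
    rw [hfp, hp1, hp2]
  have hHp : ∀ t, HH q c f (t + 1) = HH q c f t := by
    intro t
    unfold HH
    rw [hfp, deriv_per hGp]
  have e1 := hηp 0
  have e2 := hHp 0
  have e3 := hq1 0
  have e4 := hfp 0
  have e5 := hGp 0
  rw [zero_add] at e1 e2 e3 e4 e5
  rw [e1, e2, e3, e4, e5]
  ring

end ZDV
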