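import Pool.Agent.ZDV.Defs

set_option autoImplicit false

/-!
Smoothness, locality and periodicity of the quantities in `Defs`.
-/

namespace ZDV

open Finset Filter Topology
open scoped ContDiff

variable {m : ℕ}

/-- A smooth Riemannian metric in coordinates. -/
structure IsMet (g : Met m) : Prop where
  smooth : ∀ a b, ContDiff ℝ ∞ (fun x => g x a b)
  pos : ∀ x, (g x).PosDef

theorem sm_pd {F : E m → ℝ} (hF : ContDiff ℝ ∞ F) (i : Fin (m + 1)) :
    ContDiff ℝ ∞ (pd i F) := by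
  have h := hF.fderiv_right (m := ∞) (by simp)
  exact h.clm_apply contDiff_const

theorem sm_det {k : ℕ} {A : E m → Matrix (Fin k) (Fin k) ℝ}
    (hA : ∀ i j, ContDiff ℝ ∞ (fun x => A x i j)) : ContDiff ℝ ∞ (fun x => (A x).det) := by
  simp only [Matrix.det_apply]
  refine ContDiff.sum fun σ _ => ?_
  simp only [zsmul_eq_mul, Units.smul_def]
  exact contDiff_const.mul (contDiff_prod fun i _ => hA _ _)

theorem sm_inv {k : ℕ} {A : E m → Matrix (Fin k) (Fin k) ℝ}
    (hA : ∀ i j, ContDiff ℝ ∞ (fun x => A x i j)) (h0 : ∀ x, (A x).det ≠ 0) (i j : Fin k) :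
    ContDiff ℝ ∞ (fun x => (A x)⁻¹ i j) := by
  have h1 : (fun x => (A x)⁻¹ i j) =
      fun x => ((A x).det)⁻¹ * ((A x).updateRow j (Pi.single i 1)).det := by
    funext x
    rw [Matrix.inv_def, Matrix.smul_apply, Matrix.adjugate_apply, Ring.inverse_eq_inv,
      smul_eq_mul]
  rw [h1]
  refine ((sm_det hA).inv h0).mul (sm_det ?_)
  intro a b
  by_cases ha : a = j
  · subst ha
    simp only [Matrix.updateRow_self]
    exact contDiff_const
  · simp only [Matrix.updateRow_ne ha]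
    exact hA a b

section smooth

variable {g : Met m} (hg : IsMet g)

include hg

theorem IsMet.det_ne (x : E m) : (g x).det ≠ 0 := (hg.pos x).det_pos.ne'

theorem sm_ginv (a b : Fin (m + 1)) : ContDiff ℝ ∞ (fun x => (g x)⁻¹ a b) :=
  sm_inv hg.smooth hg.det_ne a b

theorem sm_chr (c a b : Fin (m + 1)) : ContDiff ℝ ∞ (chr g c a b) := by
  unfold chr
  refine contDiff_const.mul (ContDiff.sum fun d _ => ?_)
  exact (sm_ginv hg c d).mul (((sm_pd (hg.smooth b d) a).add (sm_pd (hg.smooth a d) b)).sub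
    (sm_pd (hg.smooth a b) d))

theorem sm_ric (a b : Fin (m + 1)) : ContDiff ℝ ∞ (ric g a b) := by
  unfold ric
  refine ((ContDiff.sum fun c _ => sm_pd (sm_chr hg c a b) c).sub
    (ContDiff.sum fun c _ => sm_pd (sm_chr hg c a c) b)).add
    (ContDiff.sum fun c _ => ContDiff.sum fun d _ => ?_)
  exact ((sm_chr hg c c d).mul (sm_chr hg d a b)).sub ((sm_chr hg c b d).mul (sm_chr hg d a c))

theorem sm_scal : ContDiff ℝ ∞ (scal g) := by
  unfold scal
  exact ContDiff.sum fun a _ => ContDiff.sum fun b _ => (sm_ginv hg a b).mul (sm_ric hg a b)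

theorem sm_ric0Sq : ContDiff ℝ ∞ (ric0Sq g) := by
  unfold ric0Sq
  refine ContDiff.sub (ContDiff.sum fun a _ => ContDiff.sum fun b _ => ContDiff.sum fun c _ =>
    ContDiff.sum fun d _ => ?_) (((sm_scal hg).pow 2).div_const _)
  exact (((sm_ginv hg a c).mul (sm_ginv hg b d)).mul (sm_ric hg a b)).mul (sm_ric hg c d)

theorem sm_scT (q : ℕ) (c : ℕ → ℝ) : ContDiff ℝ ∞ (scT q c g) := by
  unfold scT
  exact ContDiff.sum fun i _ => (contDiff_const.mul ((sm_scal hg).pow _)).mul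
    ((sm_ric0Sq hg).pow _)

theorem sm_sqdet : ContDiff ℝ ∞ (fun x => √(g x).det) :=
  (sm_det hg.smooth).sqrt hg.det_ne

theorem sm_grd {F : E m → ℝ} (hF : ContDiff ℝ ∞ F) (a : Fin (m + 1)) :
    ContDiff ℝ ∞ (grd g F a) := by
  unfold grd
  exact (sm_sqdet hg).mul (ContDiff.sum fun b _ => (sm_ginv hg a b).mul (sm_pd hF b))

theorem dens_eq (q : ℕ) (c : ℕ → ℝ) (x : E m) :
    dens q c g x = ∑ a, pd a (grd g (scT q c g) a) x := by
  unfold dens lap
  have h : √(g x).det ≠ 0 := (Real.sqrt_pos.2 (hg.pos x).det_pos).ne'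
  field_simp

theorem sm_dens (q : ℕ) (c : ℕ → ℝ) : ContDiff ℝ ∞ (dens q c g) := by
  rw [funext (dens_eq hg q c)]
  exact ContDiff.sum fun a _ => sm_pd (sm_grd hg (sm_scT hg q c) a) a

end smooth

section loc

theorem loc_pd {F G : E m → ℝ} {x : E m} (h : F =ᶠ[𝓝 x] G) (i : Fin (m + 1)) :
    pd i F =ᶠ[𝓝 x] pd i G := by
  have h1 := h.fderiv (𝕜 := ℝ)
  filter_upwards [h1] with y hy
  unfold pd
  rw [hy]

variable {g g' : Met m} {x : E m} (h : g =ᶠ[𝓝 x] g')

include h

theorem loc_ent (a b : Fin (m + 1)) : (fun y => g y a b) =ᶠ[𝓝 x] (fun y => g' y a b) := by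
  filter_upwards [h] with y hy
  rw [hy]

theorem loc_chr (c a b : Fin (m + 1)) : chr g c a b =ᶠ[𝓝 x] chr g' c a b := by
  have h1 : ∀ d, pd a (fun y => g y b d) =ᶠ[𝓝 x] pd a (fun y => g' y b d) :=
    fun d => loc_pd (loc_ent h b d) a
  have h2 : ∀ d, pd b (fun y => g y a d) =ᶠ[𝓝 x] pd b (fun y => g' y a d) :=
    fun d => loc_pd (loc_ent h a d) b
  have h3 : ∀ d, pd d (fun y => g y a b) =ᶠ[𝓝 x] pd d (fun y => g' y a b) :=
    fun d => loc_pd (loc_ent h a b) d
  filter_upwards [h, eventually_all.2 h1, eventually_all.2 h2, eventually_all.2 h3]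
    with y hy hy1 hy2 hy3
  unfold chr
  rw [hy]
  congr 1
  refine Finset.sum_congr rfl fun d _ => ?_
  rw [hy1 d, hy2 d, hy3 d]

theorem loc_ric (a b : Fin (m + 1)) : ric g a b =ᶠ[𝓝 x] ric g' a b := by
  have h0 : ∀ p : Fin (m + 1) × Fin (m + 1) × Fin (m + 1),
      chr g p.1 p.2.1 p.2.2 =ᶠ[𝓝 x] chr g' p.1 p.2.1 p.2.2 :=
    fun p => loc_chr h _ _ _
  have h1 : ∀ c, pd c (chr g c a b) =ᶠ[𝓝 x] pd c (chr g' c a b) :=
    fun c => loc_pd (loc_chr h c a b) c
  have h2 : ∀ c, pd b (chr g c a c) =ᶠ[𝓝 x] pd b (chr g' c a c) :=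
    fun c => loc_pd (loc_chr h c a c) b
  filter_upwards [eventually_all.2 h0, eventually_all.2 h1, eventually_all.2 h2]
    with y hy0 hy1 hy2
  have hy : ∀ i j k, chr g i j k y = chr g' i j k y := fun i j k => hy0 (i, j, k)
  unfold ric
  simp only [hy, hy1, hy2]

theorem loc_scal : scal g =ᶠ[𝓝 x] scal g' := by
  have h0 : ∀ p : Fin (m + 1) × Fin (m + 1), ric g p.1 p.2 =ᶠ[𝓝 x] ric g' p.1 p.2 :=
    fun p => loc_ric h _ _
  filter_upwards [h, eventually_all.2 h0] with y hy hy0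
  have hy1 : ∀ i j, ric g i j y = ric g' i j y := fun i j => hy0 (i, j)
  unfold scal
  simp only [hy, hy1]

theorem loc_ric0Sq : ric0Sq g =ᶠ[𝓝 x] ric0Sq g' := by
  have h0 : ∀ p : Fin (m + 1) × Fin (m + 1), ric g p.1 p.2 =ᶠ[𝓝 x] ric g' p.1 p.2 :=
    fun p => loc_ric h _ _
  filter_upwards [h, eventually_all.2 h0, loc_scal h] with y hy hy0 hy2
  have hy1 : ∀ i j, ric g i j y = ric g' i j y := fun i j => hy0 (i, j)
  unfold ric0Sq
  simp only [hy, hy1, hy2]

theorem loc_scT (q : ℕ) (c : ℕ → ℝ) : scT q c g =ᶠ[𝓝 x] scT q c g' := by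
  filter_upwards [loc_scal h, loc_ric0Sq h] with y hy hy1
  unfold scT
  simp only [hy, hy1]

theorem loc_grd (q : ℕ) (c : ℕ → ℝ) (a : Fin (m + 1)) :
    grd g (scT q c g) a =ᶠ[𝓝 x] grd g' (scT q c g') a := by
  have h1 : ∀ b, pd b (scT q c g) =ᶠ[𝓝 x] pd b (scT q c g') :=
    fun b => loc_pd (loc_scT h q c) b
  filter_upwards [h, eventually_all.2 h1] with y hy hy1
  unfold grd
  simp only [hy, hy1]

end loc

section per

theorem per_pd {F : E m → ℝ} {e : E m} (h : ∀ x, F (x + e) = F x) (i : Fin (m + 1)) (x : E m) :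
    pd i F (x + e) = pd i F x := by
  unfold pd
  have h1 := fderiv_comp_add_right (𝕜 := ℝ) (f := F) (x := x) e
  rw [← h1]
  congr 2
  funext y
  exact h y

variable {g : Met m} {e : E m} (h : ∀ x, g (x + e) = g x)

include h

theorem per_chr (c a b : Fin (m + 1)) (x : E m) : chr g c a b (x + e) = chr g c a b x := by
  have h1 : ∀ i j k, pd i (fun y => g y j k) (x + e) = pd i (fun y => g y j k) x :=
    fun i j k => per_pd (fun y => by rw [h]) i x
  unfold chr
  simp only [h, h1]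

theorem per_ric (a b : Fin (m + 1)) (x : E m) : ric g a b (x + e) = ric g a b x := by
  have h1 : ∀ l c i j, pd l (chr g c i j) (x + e) = pd l (chr g c i j) x :=
    fun l c i j => per_pd (per_chr h c i j) l x
  unfold ric
  simp only [per_chr h, h1]

theorem per_scal (x : E m) : scal g (x + e) = scal g x := by
  unfold scal
  simp only [h, per_ric h]

theorem per_ric0Sq (x : E m) : ric0Sq g (x + e) = ric0Sq g x := by
  unfold ric0Sq
  simp only [h, per_ric h, per_scal h]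

theorem per_scT (q : ℕ) (c : ℕ → ℝ) (x : E m) : scT q c g (x + e) = scT q c g x := by
  unfold scT
  simp only [per_ric0Sq h, per_scal h]

theorem per_grd (q : ℕ) (c : ℕ → ℝ) (a : Fin (m + 1)) (x : E m) :
    grd g (scT q c g) a (x + e) = grd g (scT q c g) a x := by
  have h1 : ∀ b, pd b (scT q c g) (x + e) = pd b (scT q c g) x :=
    fun b => per_pd (per_scT h q c) b x
  unfold grd
  simp only [h, h1]

end per

end ZDV
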