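import Pool.Agent.ZDV.Main

set_option autoImplicit false

/-!
The definitions used in the statement.
-/

namespace ZDV

open MeasureTheory
open scoped ContDiff

/-- Smooth functions on the torus `ℝ^(m+1) / ℤ^(m+1)`. -/
def SmP {m : ℕ} (w : E m → ℝ) : Prop :=
  ContDiff ℝ ∞ w ∧ ∀ i x, w (x + Pi.single i 1) = w x

/-- Smooth functions with compact support. -/
def SmC {m : ℕ} (w : E m → ℝ) : Prop := ContDiff ℝ ∞ w ∧ HasCompactSupport w

/-- The integral over the torus `ℝ^(m+1) / ℤ^(m+1)`. -/
noncomputable def tint {m : ℕ} (f : E m → ℝ) : ℝ := ∫ x in Set.Icc (0 : E m) 1, f x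

/-- Integrable over the whole space, with integral zero. -/
def IntZero {m : ℕ} (f : E m → ℝ) : Prop := Integrable f ∧ ∫ x, f x = 0

/-- The derivative of the functional `Φ` at `v` in the direction `w` is `L`. -/
def Dir {m : ℕ} (Φ : (E m → ℝ) → ℝ) (v w : E m → ℝ) (L : ℝ) : Prop :=
  HasDerivAt (fun ε : ℝ => Φ (fun x => v x + ε * w x)) L 0

/-- The integral of `dens` over the torus vanishes for every metric. -/
def TorusZero (q : ℕ) (c : ℕ → ℝ) : Prop :=
  ∀ g : Met (2 * q + 1), IsMet g → (∀ i x, g (x + Pi.single i 1) = g x) →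
    tint (dens q c g) = 0

/-- The integral of `dens` is conformally invariant in every coordinate chart. -/
def LocInv (q : ℕ) (c : ℕ → ℝ) : Prop :=
  ∀ g : Met (2 * q + 1), IsMet g → ∀ w : E (2 * q + 1) → ℝ, SmC w →
    IntZero (fun x => dens q c (cnf w g) x - dens q c g x)

/-- `B` is linear on the smooth functions of the torus, has continuous values and is symmetric
for the `L²` product. -/
def SymLin {m : ℕ} (B : (E m → ℝ) → E m → ℝ) : Prop :=
  (∀ w, SmP w → Continuous (B w)) ∧
  (∀ v w, SmP v → SmP w → ∀ (r : ℝ) x, B (fun y => v y + r * w y) x = B v x + r * B w x) ∧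
  ∀ v w, SmP v → SmP w → tint (fun x => w x * B v x) = tint (fun x => v x * B w x)

/-- The functional `Φ` is a primitive of `G`: its derivative at `v` in the direction `w` is the
integral of `w * G v`. -/
def Primit {m : ℕ} (G : (E m → ℝ) → E m → ℝ) (Φ : (E m → ℝ) → ℝ) : Prop :=
  ∀ v w, SmP v → SmP w → Dir Φ v w (tint (fun x => w x * G v x))

/-- On the conformal class of the flat metric of the torus, `dens` is the sum of a fixed function
`A`, a symmetric linear term `B w` and a term `G w` with a primitive. -/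
def Decomp (q : ℕ) (c : ℕ → ℝ) : Prop :=
  ∃ (A : E (2 * q + 1) → ℝ) (B G : (E (2 * q + 1) → ℝ) → E (2 * q + 1) → ℝ)
    (Φ : (E (2 * q + 1) → ℝ) → ℝ), Continuous A ∧ SymLin B ∧ Primit G Φ ∧
      ∀ w, SmP w → ∀ x, dens q c (cnf w flat) x = A x + B w x + G w x

end ZDV
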